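import Pool.Agent.helper608_VF.V9

/-!
# Homomorphic images
-/

set_option autoImplicit false

namespace Pool.Agent.H608VF

open Finset
open Pool.Agent.Y806.DF Pool.Agent.R92.Star
open scoped Pointwise

universe u v

/-- the number of the elements of the image of a coset progression which meets `B` -/
theorem image_size {Γ : Type u} {Γ' : Type v} [AddCommGroup Γ] [DecidableEq Γ] [AddCommGroup Γ']
    (f : Γ →+ Γ') (H' : AddSubgroup Γ') [Finite H'] {M : ℝ} {B : Finset Γ} (hB : B.Nonempty)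
    (hM : 1 ≤ M) (hBB : ((B + B).card : ℝ) ≤ M * B.card) {d : ℕ} {Q : Set (Fin d → ℝ)}
    (hQ : Body Q) (θ : (Fin d → ℤ) →+ Γ) (H : AddSubgroup Γ) [Finite H] (T : Finset Γ)
    (hd : (4 : ℝ) ^ d ≤ M) (hT : (T.card : ℝ) ≤ M) (hvol : (lat Q).ncard * Nat.card H ≤ B.card)
    (hcov : Cov Q θ H T B) :
    ((cpr (lat Q) (f.comp θ) (H.map f ⊔ H')).ncard : ℝ) ≤
      M ^ 8 * ({y | ∃ b ∈ B, ∃ h ∈ H', y = f b + h}.ncard : ℝ) := by
  classical
  have hM0 : 0 < M := by linarith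
  have hsym : Sym Q := ⟨hQ.1, hQ.2.1, hQ.2.2.2, hQ.2.2.1.mono interior_subset⟩
  have hfin : (lat Q).Finite := lat_finite hQ.2.1.isBounded
  -- the coset progression
  have hWfin : (cpr (lat Q) θ H).Finite := cpr_finite hfin θ H
  set W : Finset Γ := hWfin.toFinset with hW
  have hWmem : ∀ w, w ∈ W ↔ ∃ v ∈ lat Q, ∃ h ∈ H, w = θ v + h := fun w => by
    rw [hW, Set.Finite.mem_toFinset]
    rfl
  -- the popular translate
  obtain ⟨t, ht, ht2⟩ := pigeon T B B hB (fun t b => ∃ w ∈ W, b = t + w) subset_rfl (by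
    intro b hb
    obtain ⟨t, ht, x, hx, h, hh, e⟩ := hcov b hb
    exact ⟨t, ht, θ x + h, (hWmem _).2 ⟨x, hx, h, hh, rfl⟩, by rw [e, add_assoc]⟩)
  set D : Finset Γ := W.filter (fun w => t + w ∈ B) with hD
  have hDc : (B.filter (fun b => ∃ w ∈ W, b = t + w)).card ≤ D.card := by
    have h1 : B.filter (fun b => ∃ w ∈ W, b = t + w) ⊆ D.image (fun w => t + w) := by
      intro b hb
      obtain ⟨hb1, w, hw, rfl⟩ := Finset.mem_filter.1 hb
      exact Finset.mem_image.2 ⟨w, Finset.mem_filter.2 ⟨hw, hb1⟩, rfl⟩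
    exact (Finset.card_le_card h1).trans Finset.card_image_le
  have hBD : (B.card : ℝ) ≤ M * D.card := by
    have h1 : (B.card : ℝ) ≤ T.card * D.card := by
      exact_mod_cast ht2.trans (Nat.mul_le_mul_left _ hDc)
    exact h1.trans (mul_le_mul_of_nonneg_right hT (Nat.cast_nonneg _))
  have hBr : (0 : ℝ) < B.card := by exact_mod_cast hB.card_pos
  have hDne : D.Nonempty := by
    rw [← Finset.card_pos]
    by_contra h
    have h0 : D.card = 0 := by omega
    rw [h0, Nat.cast_zero, mul_zero] at hBD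
    linarith
  -- `W + D` is small
  have hWD : ((W + D).card : ℝ) ≤ M ^ 2 * D.card := by
    have h1 : ((W + D : Finset Γ) : Set Γ) ⊆ cpr (lat ((2 : ℝ) • Q)) θ H := by
      intro x hx
      obtain ⟨a, ha, b, hb, rfl⟩ := Finset.mem_add.1 (Finset.mem_coe.1 hx)
      obtain ⟨v, hv, h, hh, rfl⟩ := (hWmem a).1 ha
      obtain ⟨w, hw, k, hk, rfl⟩ := (hWmem b).1 (Finset.mem_filter.1 hb).1
      refine ⟨v + w, ?_, h + k, H.add_mem hh hk, by rw [map_add]; abel⟩
      have hv' : v ∈ lat ((1 : ℝ) • Q) := by rwa [one_smul]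
      have hw' : w ∈ lat ((1 : ℝ) • Q) := by rwa [one_smul]
      have h5 := hsym.add (by norm_num) (by norm_num) hv' hw'
      have e : (1 : ℝ) + 1 = 2 := by norm_num
      rwa [e] at h5
    have h2 : (W + D).card ≤ (lat ((2 : ℝ) • Q)).ncard * Nat.card H := by
      rw [← Set.ncard_coe_finset]
      exact (Set.ncard_le_ncard h1 (cpr_finite (hsym.finite 2) θ H)).trans
        (ncard_cpr_le (hsym.finite 2) θ H)
    have h3 : (lat ((2 : ℝ) • Q)).ncard ≤ 4 ^ d * (lat Q).ncard := by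
      have h3 := num_double hsym (t := 1) (by norm_num)
      rw [mul_one] at h3
      have h4 : num Q 1 = (lat Q).ncard := by rw [num, one_smul]
      rw [h4] at h3
      exact h3
    have h4 : (W + D).card ≤ 4 ^ d * B.card := by
      calc (W + D).card ≤ (lat ((2 : ℝ) • Q)).ncard * Nat.card H := h2
        _ ≤ (4 ^ d * (lat Q).ncard) * Nat.card H := Nat.mul_le_mul_right _ h3
        _ = 4 ^ d * ((lat Q).ncard * Nat.card H) := by ring
        _ ≤ 4 ^ d * B.card := Nat.mul_le_mul_left _ hvol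
    calc ((W + D).card : ℝ) ≤ 4 ^ d * B.card := by exact_mod_cast h4
      _ ≤ M * (M * D.card) := mul_le_mul hd hBD (Nat.cast_nonneg _) hM0.le
      _ = M ^ 2 * D.card := by ring
  obtain ⟨F, -, hF, hcovF⟩ := Finset.ruzsa_covering_add hDne hWD
  -- the images
  set q := QuotientAddGroup.mk' H' with hq
  set Y : Finset (Γ' ⧸ H') := B.image (fun b => q (f b)) with hY
  have hYne : Y.Nonempty := hB.image _
  have hYdoub : ((Y + Y).card : ℝ) ≤ M ^ 3 * Y.card :=
    Pool.Agent.R424.EX.image_doubling (q.comp f) hB hBB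
  have hYdiff := ruzsa_diff hYne hYdoub
  have hset : ({y | ∃ b ∈ B, ∃ h ∈ H', y = f b + h} : Set Γ') = q ⁻¹' (Y : Set (Γ' ⧸ H')) := by
    have h1 : ({y | ∃ b ∈ B, ∃ h ∈ H', y = f b + h} : Set Γ') = f '' (B : Set Γ) + (H' : Set Γ') := by
      ext y
      constructor
      · rintro ⟨b, hb, h, hh, rfl⟩
        exact Set.add_mem_add ⟨b, hb, rfl⟩ hh
      · rintro ⟨_, ⟨b, hb, rfl⟩, h, hh, rfl⟩
        exact ⟨b, hb, h, hh, rfl⟩
    rw [h1, add_eq_preim, hY, Finset.coe_image, Set.image_image]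
  have hcardP : ({y | ∃ b ∈ B, ∃ h ∈ H', y = f b + h} : Set Γ').ncard = Nat.card H' * Y.card := by
    rw [hset, ncard_preim, Set.ncard_coe_finset]
  have hset2 : cpr (lat Q) (f.comp θ) (H.map f ⊔ H') ⊆
      q ⁻¹' ((F.image (fun b => q (f b)) + (Y - Y) : Finset (Γ' ⧸ H')) : Set (Γ' ⧸ H')) := by
    rintro y ⟨v, hv, h, hh, rfl⟩
    obtain ⟨h₁, ⟨k, hk, rfl⟩, h₂, hh₂, rfl⟩ := AddSubgroup.mem_sup.1 hh
    have hw : θ v + k ∈ W := (hWmem _).2 ⟨v, hv, k, hk, rfl⟩
    obtain ⟨x, hx, e, he, hxe⟩ := Finset.mem_add.1 (hcovF hw)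
    obtain ⟨a, ha, b, hb, rfl⟩ := Finset.mem_sub.1 he
    have h3 : q ((f.comp θ) v + (f k + h₂)) = q (f x) + (q (f (t + a)) - q (f (t + b))) := by
      have h4 : q h₂ = 0 := (QuotientAddGroup.eq_zero_iff h₂).2 hh₂
      have h5 : q (f (θ v + k)) = q (f (x + (a - b))) := by rw [hxe]
      rw [map_add, map_add, map_add, h4, add_zero, AddMonoidHom.comp_apply]
      rw [map_add, map_add] at h5
      rw [h5]
      simp only [map_add, map_sub]
      abel
    show q ((f.comp θ) v + (f k + h₂)) ∈ ((F.image (fun b => q (f b)) + (Y - Y) :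
      Finset (Γ' ⧸ H')) : Set (Γ' ⧸ H'))
    rw [h3, Finset.mem_coe]
    exact Finset.add_mem_add (Finset.mem_image_of_mem _ hx) (Finset.sub_mem_sub
      (Finset.mem_image_of_mem _ (Finset.mem_filter.1 ha).2)
      (Finset.mem_image_of_mem _ (Finset.mem_filter.1 hb).2))
  have hH'pos : 0 < Nat.card H' := Nat.card_pos
  have hfinP : (q ⁻¹' ((F.image (fun b => q (f b)) + (Y - Y) : Finset (Γ' ⧸ H')) :
      Set (Γ' ⧸ H'))).Finite := by
    by_contra hinf
    have h1 := ncard_preim H' ((F.image (fun b => q (f b)) + (Y - Y) : Finset (Γ' ⧸ H')) :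
      Set (Γ' ⧸ H'))
    rw [← hq, Set.Infinite.ncard hinf, Set.ncard_coe_finset] at h1
    have h2 : 0 < (F.image (fun b => q (f b)) + (Y - Y)).card := by
      have h3 : F.Nonempty := by
        obtain ⟨w, hw⟩ : W.Nonempty := ⟨_, (Finset.mem_filter.1 hDne.choose_spec).1⟩
        obtain ⟨x, hx, -⟩ := Finset.mem_add.1 (hcovF hw)
        exact ⟨x, hx⟩
      exact Finset.card_pos.2 ((h3.image _).add (hYne.sub hYne))
    have := Nat.mul_pos hH'pos h2
    omega
  have h6 : (cpr (lat Q) (f.comp θ) (H.map f ⊔ H')).ncard ≤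
      Nat.card H' * (F.card * (Y - Y).card) := by
    calc (cpr (lat Q) (f.comp θ) (H.map f ⊔ H')).ncard
        ≤ (q ⁻¹' ((F.image (fun b => q (f b)) + (Y - Y) : Finset (Γ' ⧸ H')) :
            Set (Γ' ⧸ H'))).ncard := Set.ncard_le_ncard hset2 hfinP
      _ = Nat.card H' * (F.image (fun b => q (f b)) + (Y - Y)).card := by
          rw [ncard_preim, Set.ncard_coe_finset]
      _ ≤ Nat.card H' * (F.card * (Y - Y).card) := by
          refine Nat.mul_le_mul_left _ (Finset.card_add_le.trans ?_)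
          exact Nat.mul_le_mul_right _ Finset.card_image_le
  rw [hcardP]
  calc ((cpr (lat Q) (f.comp θ) (H.map f ⊔ H')).ncard : ℝ)
      ≤ Nat.card H' * (F.card * (Y - Y).card) := by exact_mod_cast h6
    _ ≤ Nat.card H' * (M ^ 2 * ((M ^ 3) ^ 2 * Y.card)) := by
        gcongr
    _ = M ^ 8 * ((Nat.card H' * Y.card : ℕ) : ℝ) := by push_cast; ring

/-- **Homomorphic images.** -/
theorem images (C : ℝ) : ∃ C' : ℝ, ∀ (Γ : Type u) (Γ' : Type v) [AddCommGroup Γ] [DecidableEq Γ]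
    [AddCommGroup Γ'] [DecidableEq Γ'] (f : Γ →+ Γ') (H' : AddSubgroup Γ') (K : ℝ) (B : Finset Γ)
    (A T₀ : Finset Γ'), Finite H' → B.Nonempty → ((B + B).card : ℝ) ≤ C * K ^ C * B.card →
    Concl C K B → A.Nonempty → ((A + A).card : ℝ) ≤ K * A.card →
    (T₀.card : ℝ) ≤ C * K ^ C → (∀ a ∈ A, ∃ t ∈ T₀, ∃ b ∈ B, ∃ h ∈ H', a = t + f b + h) →
    ({y | ∃ b ∈ B, ∃ h ∈ H', y = f b + h}.ncard : ℝ) ≤ C * K ^ C * A.card → Concl C' K A := by
  obtain ⟨n, hn1, hn, hCK⟩ := nat_const C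
  obtain ⟨c, hc⟩ : ∃ c : ℕ, c = 4 ^ n := ⟨_, rfl⟩
  obtain ⟨C', hC'⟩ := concl_of_cov.{v} (c ^ 9) (c * 9)
  refine ⟨C', ?_⟩
  intro Γ Γ' _ _ _ _ f H' K B A T₀ hH' hB hBB h hA hK hT₀ hcov₀ hsz
  have hK1 := one_le_K hA hK
  have hK0 : 0 < K := by linarith
  have hN := poly_le hn1 hK1
  rw [← hc] at hN
  have hCM : C * K ^ C ≤ (c : ℝ) * K ^ c := (hCK K hK1).trans hN
  have hc1 : (1 : ℝ) ≤ c := by rw [hc]; exact_mod_cast Nat.one_le_pow _ _ (by norm_num)
  obtain ⟨M, hM⟩ : ∃ M : ℝ, M = (c : ℝ) * K ^ c := ⟨_, rfl⟩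
  rw [← hM] at hCM
  have hM1 : 1 ≤ M := by
    rw [hM]
    have : (1 : ℝ) ≤ K ^ c := one_le_pow₀ hK1
    nlinarith
  have hM0 : 0 < M := by linarith
  obtain ⟨d, Q, θ, H, T, hd, hQ, hH, hvol, hT, hcov⟩ := h
  have hd4 : (4 : ℝ) ^ d ≤ M := by
    have := four_pow hn hK1 hd
    rw [← hc, ← hM] at this
    exact this
  have hAr : (0 : ℝ) < A.card := by exact_mod_cast hA.card_pos
  have hsize := image_size f H' hB hM1 (hBB.trans (mul_le_mul_of_nonneg_right hCM
    (Nat.cast_nonneg _))) hQ θ H T hd4 (hT.trans hCM) hvol hcov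
  have hM9 : ((c ^ 9 : ℕ) : ℝ) * K ^ (c * 9) = M ^ 9 := by
    rw [hM, mul_pow, ← pow_mul]
    push_cast
    ring
  have hMM : M ≤ M ^ 9 := le_self_pow₀ hM1 (by norm_num)
  have hMM2 : M ^ 2 ≤ M ^ 9 := pow_le_pow_right₀ hM1 (by norm_num)
  have hfin : Finite ((H.map f ⊔ H' : AddSubgroup Γ')) := by
    have h1 : ((H.map f ⊔ H' : AddSubgroup Γ') : Set Γ') ⊆ (H.map f : Set Γ') + (H' : Set Γ') := by
      intro y hy
      obtain ⟨a, ha, b, hb, rfl⟩ := AddSubgroup.mem_sup.1 hy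
      exact Set.add_mem_add ha hb
    have h2 : ((H.map f : AddSubgroup Γ') : Set Γ').Finite := by
      rw [AddSubgroup.coe_map]
      exact (Set.toFinite (H : Set Γ)).image f
    have h3 : ((H.map f ⊔ H' : AddSubgroup Γ') : Set Γ').Finite :=
      (h2.add (Set.toFinite (H' : Set Γ'))).subset h1
    exact h3.to_subtype
  classical
  refine hC' Γ' K A hA hK d Q (f.comp θ) (H.map f ⊔ H')
    ((T₀ ×ˢ T).image (fun p => p.1 + f p.2)) ?_ ?_ hQ hfin ?_ ?_ ?_
  · rw [hM9]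
    exact one_le_pow₀ hM1
  · rw [hM9]
    exact hd4.trans hMM
  · rw [hM9]
    calc ((cpr (lat Q) (f.comp θ) (H.map f ⊔ H')).ncard : ℝ)
        ≤ M ^ 8 * ({y | ∃ b ∈ B, ∃ h ∈ H', y = f b + h}.ncard : ℝ) := hsize
      _ ≤ M ^ 8 * (M * A.card) := by
        refine mul_le_mul_of_nonneg_left (hsz.trans ?_) (by positivity)
        exact mul_le_mul_of_nonneg_right hCM hAr.le
      _ = M ^ 9 * A.card := by ring
  · rw [hM9]
    have h1 : ((T₀ ×ˢ T).image (fun p => p.1 + f p.2)).card ≤ T₀.card * T.card := by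
      refine Finset.card_image_le.trans ?_
      rw [Finset.card_product]
    calc (((T₀ ×ˢ T).image (fun p => p.1 + f p.2)).card : ℝ) ≤ T₀.card * T.card := by
          exact_mod_cast h1
      _ ≤ M * M := mul_le_mul (hT₀.trans hCM) (hT.trans hCM) (Nat.cast_nonneg _) hM0.le
      _ = M ^ 2 := by ring
      _ ≤ M ^ 9 := hMM2
  · intro a ha
    obtain ⟨t, ht, b, hb, h', hh', rfl⟩ := hcov₀ a ha
    obtain ⟨s, hs, x, hx, h, hh, rfl⟩ := hcov b hb
    refine ⟨t + f s, Finset.mem_image.2 ⟨(t, s), Finset.mk_mem_product ht hs, rfl⟩, x, hx,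
      f h + h', ?_, ?_⟩
    · exact AddSubgroup.add_mem_sup (AddSubgroup.mem_map_of_mem f hh) hh'
    · rw [map_add, map_add, AddMonoidHom.comp_apply]
      abel

end Pool.Agent.H608VF
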