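import Pool.Agent.H845R2.MP2
import Pool.Agent.Y806.DF.C

/-!
# The ellipsoid of Milman of a symmetric convex body, and numbers of lattice points
-/

set_option autoImplicit false

namespace Pool.Agent.H608VF

open Finset MeasureTheory Matrix
open Pool.Agent.Y806.DF
open scoped Pointwise ENNReal

/-- volume of the ball of radius `√(2r)` -/
theorem vol_ball (r : ℕ) : (volume {y : Fin r → ℝ | y ⬝ᵥ y ≤ 2 * r}).toReal ≤
    Real.exp r * (Real.sqrt (2 * Real.pi)) ^ r := by
  have hint : ∫ y : Fin r → ℝ, ∏ i, Real.exp (-(1 / 2) * (y i) ^ 2) =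
      (Real.sqrt (2 * Real.pi)) ^ r := by
    have h1 := MeasureTheory.integral_fintype_prod_eq_pow (𝕜 := ℝ) (ι := Fin r)
      (fun x : ℝ => Real.exp (-(1 / 2) * x ^ 2)) (μ := volume)
    rw [integral_gaussian] at h1
    rw [Fintype.card_fin] at h1
    have e : (Real.pi / (1 / 2)) = 2 * Real.pi := by ring
    rw [e] at h1
    exact h1
  have hI : Integrable (fun y : Fin r → ℝ => ∏ i, Real.exp (-(1 / 2) * (y i) ^ 2)) := by
    exact MeasureTheory.Integrable.fintype_prod (fun _ => integrable_exp_neg_mul_sq (by norm_num))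
  set A : Set (Fin r → ℝ) := {y | y ⬝ᵥ y ≤ 2 * r} with hA
  have hAc : IsClosed A := by
    refine isClosed_le ?_ continuous_const
    unfold dotProduct
    fun_prop
  have hAb : Bornology.IsBounded A := by
    refine (Metric.isBounded_closedBall (x := (0 : Fin r → ℝ)) (r := 2 * r + 1)).subset ?_
    intro y hy
    rw [mem_closedBall_zero_iff, pi_norm_le_iff_of_nonneg (by positivity)]
    intro i
    have h1 : y i ^ 2 ≤ y ⬝ᵥ y := by
      unfold dotProduct
      have h2 := Finset.single_le_sum (f := fun j => y j * y j) (fun j _ => mul_self_nonneg (y j))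
        (Finset.mem_univ i)
      calc y i ^ 2 = y i * y i := by ring
        _ ≤ _ := h2
    have h2 : y ⬝ᵥ y ≤ 2 * r := hy
    rw [Real.norm_eq_abs]
    have h3 : (0 : ℝ) ≤ r := Nat.cast_nonneg r
    exact abs_le_of_sq_le_sq (by nlinarith) (by positivity)
  have hfin : volume A ≠ ⊤ := hAb.measure_lt_top.ne
  have h1 : (volume A).toReal ≤ ∫ y in A, Real.exp r * ∏ i, Real.exp (-(1 / 2) * (y i) ^ 2) := by
    have h2 : (volume A).toReal = ∫ _ in A, (1 : ℝ) := by simp [Measure.real]
    rw [h2]
    refine setIntegral_mono_on (integrableOn_const hfin) (hI.const_mul _).integrableOn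
      hAc.measurableSet ?_
    intro y hy
    rw [← Real.exp_sum, ← Real.exp_add]
    apply Real.one_le_exp
    have h3 : ∑ i, -(1 / 2 : ℝ) * (y i) ^ 2 = -(1 / 2) * (y ⬝ᵥ y) := by
      rw [← Finset.mul_sum]
      congr 1
      unfold dotProduct
      exact Finset.sum_congr rfl fun i _ => by ring
    rw [h3]
    have h4 : y ⬝ᵥ y ≤ 2 * r := hy
    linarith
  refine h1.trans ?_
  rw [integral_const_mul]
  refine mul_le_mul_of_nonneg_left ?_ (Real.exp_pos _).le
  rw [← hint]
  exact setIntegral_le_integral hI (Filter.Eventually.of_forall fun y =>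
    Finset.prod_nonneg fun i _ => (Real.exp_pos _).le)

/-- the ellipsoid of the matrix `S` -/
def El {r : ℕ} (S : Matrix (Fin r) (Fin r) ℝ) : Set (Fin r → ℝ) :=
  {x | S.mulVec x ⬝ᵥ S.mulVec x ≤ 2 * r}

theorem vol_image {r : ℕ} (S : Matrix (Fin r) (Fin r) ℝ) (A : Set (Fin r → ℝ)) :
    (volume (S.mulVec '' A)).toReal = |S.det| * (volume A).toReal := by
  have h1 := MeasureTheory.Measure.addHaar_image_linearMap (volume : Measure (Fin r → ℝ))
    (Matrix.toLin' S) A
  rw [LinearMap.det_toLin'] at h1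
  have h2 : (⇑(Matrix.toLin' S) '' A) = S.mulVec '' A := by
    ext x; simp [Matrix.toLin'_apply]
  rw [h2] at h1
  rw [h1, ENNReal.toReal_mul, ENNReal.toReal_ofReal (abs_nonneg _)]

end Pool.Agent.H608VF
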