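import Pool.Agent.helper608_VF.V11

/-!
# Q1 = Q1 for the lattices + a weak structure theorem
-/

set_option autoImplicit false

namespace Pool.Agent.H608VF

open Finset
open Pool.Agent.Y806.DF Pool.Agent.R92.Star
open scoped Pointwise

universe u v

/-- The weak structure of the set `A`: there is a finite subgroup `P` with `|A + P| ≤ C K ^ C |A|`
and a coset of the group generated by `P` and at most `C log (2 K)` elements that contains at least
`|A| / (C K ^ C)` elements of `A`. -/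
def WStr {Γ : Type*} [AddCommGroup Γ] (C K : ℝ) (A : Finset Γ) : Prop :=
  ∃ (P : AddSubgroup Γ) (S : Finset Γ) (t : Γ), Finite P ∧
    (((A : Set Γ) + (P : Set Γ)).ncard : ℝ) ≤ C * K ^ C * A.card ∧
    (S.card : ℝ) ≤ C * Real.log (2 * K) ∧
    (A.card : ℝ) ≤
      C * K ^ C * ({a : Γ | a ∈ A ∧ a - t ∈ P ⊔ AddSubgroup.closure (S : Set Γ)}.ncard : ℝ)

/-- **From the weak to the strong structure**, if Q1 holds for the lattices. -/
theorem concl_of_wstr (C C₀ : ℝ) : ∃ C' : ℝ, QZ C → ∀ (Γ : Type u) [AddCommGroup Γ]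
    [DecidableEq Γ] (K : ℝ) (A : Finset Γ), A.Nonempty → ((A + A).card : ℝ) ≤ K * A.card →
    WStr C₀ K A → Concl C' K A := by
  classical
  obtain ⟨n, hn1, hn, hCK⟩ := nat_const C₀
  obtain ⟨c, hc⟩ : ∃ c : ℕ, c = 4 ^ n := ⟨_, rfl⟩
  obtain ⟨C₁, hC₁⟩ := small_rank.{u} C 4096
  obtain ⟨C₂, hC₂⟩ := stepII.{u} C₁
  obtain ⟨n₂, hn₂1, hn₂, hCK₂⟩ := nat_const C₂
  obtain ⟨c₂, hc₂⟩ : ∃ c₂ : ℕ, c₂ = 4 ^ n₂ := ⟨_, rfl⟩
  obtain ⟨C', hC'⟩ := Pool.Agent.R424.EX.concl_of.{u} (c * (c₂ * c ^ c₂)) (c + (c + 1) * c₂)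
  refine ⟨C', ?_⟩
  rintro hQ Γ _ _ K A hA hK ⟨P, S, t, hP, hper, hS, hpop⟩
  have hK1 := one_le_K hA hK
  have hK0 : 0 < K := by linarith
  have hN := poly_le hn1 hK1
  rw [← hc] at hN
  have hCM : C₀ * K ^ C₀ ≤ (c : ℝ) * K ^ c := (hCK K hK1).trans hN
  have hc1n : 1 ≤ c := by rw [hc]; exact Nat.one_le_pow _ _ (by norm_num)
  have hc1 : (1 : ℝ) ≤ c := by exact_mod_cast hc1n
  obtain ⟨M, hM⟩ : ∃ M : ℝ, M = (c : ℝ) * K ^ c := ⟨_, rfl⟩
  rw [← hM] at hCM
  have hM1 : 1 ≤ M := by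
    rw [hM]
    have : (1 : ℝ) ≤ K ^ c := one_le_pow₀ hK1
    nlinarith
  have hM0 : 0 < M := by linarith
  have hAr : (0 : ℝ) < A.card := by exact_mod_cast hA.card_pos
  -- the large part
  obtain ⟨A', hA'⟩ : ∃ A' : Finset Γ,
    A' = A.filter (fun a => a - t ∈ P ⊔ AddSubgroup.closure (S : Set Γ)) := ⟨_, rfl⟩
  have hA'A : A' ⊆ A := by rw [hA']; exact Finset.filter_subset _ _
  have hpop' : (A.card : ℝ) ≤ M * A'.card := by
    have h1 : {a : Γ | a ∈ A ∧ a - t ∈ P ⊔ AddSubgroup.closure (S : Set Γ)} = (A' : Set Γ) := by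
      rw [hA', Finset.coe_filter]
    rw [h1, Set.ncard_coe_finset] at hpop
    exact hpop.trans (mul_le_mul_of_nonneg_right hCM (Nat.cast_nonneg _))
  have hA'ne : A'.Nonempty := by
    rw [← Finset.card_pos]
    by_contra h
    have h0 : A'.card = 0 := by omega
    rw [h0, Nat.cast_zero, mul_zero] at hpop'
    linarith
  obtain ⟨K₁, hK₁⟩ : ∃ K₁ : ℝ, K₁ = K * M := ⟨_, rfl⟩
  have hMK₁ : M ≤ K₁ := by rw [hK₁]; exact le_mul_of_one_le_left hM0.le hK1
  have hK₁1 : 1 ≤ K₁ := hM1.trans hMK₁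
  have hdoub : ((A' + A').card : ℝ) ≤ K₁ * A'.card := by
    have h1 : ((A' + A').card : ℝ) ≤ (A + A).card := by
      exact_mod_cast Finset.card_le_card (Finset.add_subset_add hA'A hA'A)
    calc ((A' + A').card : ℝ) ≤ (A + A).card := h1
      _ ≤ K * A.card := hK
      _ ≤ K * (M * A'.card) := mul_le_mul_of_nonneg_left hpop' hK0.le
      _ = K₁ * A'.card := by rw [hK₁]; ring
  have hper' : (((A' : Set Γ) + (P : Set Γ)).ncard : ℝ) ≤ 2 * K₁ ^ 370 * A'.card := by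
    have h1 : ((A' : Set Γ) + (P : Set Γ)).ncard ≤ ((A : Set Γ) + (P : Set Γ)).ncard := by
      refine Set.ncard_le_ncard (Set.add_subset_add_right (Finset.coe_subset.2 hA'A)) ?_
      exact (Finset.finite_toSet A).add (Set.toFinite (P : Set Γ))
    have h2 : M * M ≤ 2 * K₁ ^ 370 := by
      calc M * M ≤ K₁ * K₁ := mul_le_mul hMK₁ hMK₁ hM0.le (by linarith)
        _ = 1 * K₁ ^ 2 := by ring
        _ ≤ 2 * K₁ ^ 370 := mul_le_mul (by norm_num) (pow_le_pow_right₀ hK₁1 (by norm_num))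
          (by positivity) (by norm_num)
    calc (((A' : Set Γ) + (P : Set Γ)).ncard : ℝ) ≤ (((A : Set Γ) + (P : Set Γ)).ncard : ℝ) := by
          exact_mod_cast h1
      _ ≤ C₀ * K ^ C₀ * A.card := hper
      _ ≤ M * A.card := mul_le_mul_of_nonneg_right hCM hAr.le
      _ ≤ M * (M * A'.card) := mul_le_mul_of_nonneg_left hpop' hM0.le
      _ = (M * M) * A'.card := by ring
      _ ≤ _ := mul_le_mul_of_nonneg_right h2 (Nat.cast_nonneg _)
  have h4S : (4 : ℝ) ^ S.card ≤ M := by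
    have := four_pow hn hK1 hS
    rw [← hc, ← hM] at this
    exact this
  -- the quotient
  have hconcl : Concl C₂ K₁ A' := by
    refine hC₂ Γ P K₁ A' hP hA'ne hdoub hper' ?_
    set p := QuotientAddGroup.mk' P with hp
    have hne : (A'.image p).Nonempty := hA'ne.image _
    have hd' := Pool.Agent.R424.EX.image_doubling p hA'ne hdoub
    obtain ⟨φ, hφ⟩ := exists_phi S
    have hKmono : ∀ k : ℕ, k ≤ 3 * 4096 → (K₁ : ℝ) ^ k ≤ (K₁ ^ 3) ^ 4096 := by
      intro k hk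
      rw [← pow_mul]
      exact pow_le_pow_right₀ hK₁1 hk
    refine hC₁ hQ (Γ ⧸ P) (K₁ ^ 3) (A'.image p) hne hd' (p t) S.card (p.comp φ) (A'.image p)
      (Finset.Subset.refl _) ?_ ?_ ?_
    · intro b hb
      obtain ⟨a, ha, rfl⟩ := Finset.mem_image.1 hb
      rw [hA', Finset.mem_filter] at ha
      obtain ⟨u, hu, w, hw, huw⟩ := AddSubgroup.mem_sup.1 ha.2
      obtain ⟨v, hv⟩ := hφ w hw
      refine ⟨v, ?_⟩
      have h1 : p u = 0 := (QuotientAddGroup.eq_zero_iff u).2 hu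
      have h2 : a = t + (u + w) := by rw [huw]; abel
      rw [h2, map_add, map_add, h1, zero_add, AddMonoidHom.comp_apply, hv]
    · refine le_mul_of_one_le_left (Nat.cast_nonneg _) ?_
      have := hKmono 0 (by norm_num)
      rw [pow_zero] at this
      push_cast
      linarith
    · calc (125 : ℝ) ^ S.card ≤ (4 ^ 4) ^ S.card := pow_le_pow_left₀ (by norm_num) (by norm_num) _
        _ = (4 ^ S.card) ^ 4 := by rw [← pow_mul, ← pow_mul, mul_comm]
        _ ≤ K₁ ^ 4 := pow_le_pow_left₀ (by positivity) (h4S.trans hMK₁) 4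
        _ ≤ (K₁ ^ 3) ^ 4096 := hKmono 4 (by norm_num)
        _ ≤ ((4096 : ℕ) : ℝ) * (K₁ ^ 3) ^ 4096 :=
          le_mul_of_one_le_left (by positivity) (by norm_num)
  -- back to `A`
  obtain ⟨d, X, ψ, H, g, hD⟩ := data_of_concl hn₂1 hn₂ hCK₂ hA'ne hdoub hconcl
  obtain ⟨M₂, hM₂⟩ : ∃ M₂ : ℝ, M₂ = ((4 ^ n₂ : ℕ) : ℝ) * K₁ ^ (4 ^ n₂ : ℕ) := ⟨_, rfl⟩
  rw [← hM₂] at hD
  have hM₂1 : 1 ≤ M₂ := by
    rw [hM₂]
    have h1 : (1 : ℝ) ≤ K₁ ^ (4 ^ n₂ : ℕ) := one_le_pow₀ hK₁1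
    have h3 : (1 : ℝ) ≤ ((4 ^ n₂ : ℕ) : ℝ) := by exact_mod_cast Nat.one_le_pow _ _ (by norm_num)
    nlinarith
  have hM₂M : M₂ ≤ M * M₂ := le_mul_of_one_le_left (by linarith) hM1
  have hA'r : (A'.card : ℝ) ≤ A.card := by exact_mod_cast Finset.card_le_card hA'A
  have hD' : Data (M * M₂) A X ψ H g := by
    refine ⟨hD.ne, hD.fin, ?_, ?_, ?_, ?_⟩
    · exact hD.doubling.trans (mul_le_mul_of_nonneg_right hM₂M (Nat.cast_nonneg _))
    · exact hD.dense.trans (mul_le_mul_of_nonneg_right hM₂M (Nat.cast_nonneg _))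
    · exact hD.size.trans (mul_le_mul hM₂M hA'r (Nat.cast_nonneg _) (by positivity))
    · have h1 : {a : Γ | a ∈ A' ∧ ∃ x ∈ X, ∃ h ∈ H, a = g + ψ x + h}.ncard ≤
          {a : Γ | a ∈ A ∧ ∃ x ∈ X, ∃ h ∈ H, a = g + ψ x + h}.ncard := by
        refine Set.ncard_le_ncard (fun a ha => ⟨hA'A ha.1, ha.2⟩) ?_
        exact (Finset.finite_toSet A).subset (fun a ha => ha.1)
      have h2 : ({a : Γ | a ∈ A' ∧ ∃ x ∈ X, ∃ h ∈ H, a = g + ψ x + h}.ncard : ℝ) ≤
          ({a : Γ | a ∈ A ∧ ∃ x ∈ X, ∃ h ∈ H, a = g + ψ x + h}.ncard : ℝ) := by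
        exact_mod_cast h1
      calc (A.card : ℝ) ≤ M * A'.card := hpop'
        _ ≤ M * (M₂ * ({a : Γ | a ∈ A' ∧ ∃ x ∈ X, ∃ h ∈ H, a = g + ψ x + h}.ncard : ℝ)) :=
          mul_le_mul_of_nonneg_left hD.meet hM0.le
        _ ≤ M * (M₂ * ({a : Γ | a ∈ A ∧ ∃ x ∈ X, ∃ h ∈ H, a = g + ψ x + h}.ncard : ℝ)) := by
          gcongr
        _ = _ := by ring
  refine hC' Γ K A hA hK d X ψ H g (hD'.mono (le_of_eq ?_))
  rw [hM₂, hK₁, hM, ← hc₂]
  have e1 : K * ((c : ℝ) * K ^ c) = c * K ^ (c + 1) := by rw [pow_succ]; ring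
  rw [e1, mul_pow, ← pow_mul K, pow_add K]
  push_cast
  ring

/-- the converse -/
theorem wstr_of_concl (C : ℝ) : ∃ C' : ℝ, ∀ (Γ : Type u) [AddCommGroup Γ] [DecidableEq Γ]
    (K : ℝ) (A : Finset Γ), A.Nonempty → ((A + A).card : ℝ) ≤ K * A.card → Concl C K A →
    WStr C' K A := by
  classical
  obtain ⟨n, hn1, hn, hCK⟩ := nat_const C
  refine ⟨(n : ℝ), ?_⟩
  rintro Γ _ _ K A hA hK ⟨d, B, ψ, H, T, hd, hB, hH, hvol, hT, hcov⟩
  have hK1 := one_le_K hA hK
  have hlog0 : 0 ≤ Real.log (2 * K) := Real.log_nonneg (by linarith)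
  have hT' := hT.trans (hCK K hK1)
  have hfin : (lat B).Finite := lat_finite hB.2.1.isBounded
  obtain ⟨t, ht, ht2⟩ := pigeon T A A hA (fun t a => ∃ x ∈ lat B, ∃ h ∈ H, a = t + ψ x + h)
    subset_rfl (by
      intro a ha
      obtain ⟨t, ht, x, hx, h, hh, e⟩ := hcov a ha
      exact ⟨t, ht, x, hx, h, hh, e⟩)
  set S : Finset Γ := Finset.univ.image (fun i : Fin d => ψ (Pi.single i 1)) with hS
  refine ⟨H, S, t, hH, ?_, ?_, ?_⟩
  · have h1 : (A : Set Γ) + (H : Set Γ) ⊆ (T : Set Γ) + cpr (lat B) ψ H := by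
      rintro _ ⟨a, ha, k, hk, rfl⟩
      obtain ⟨s, hs, x, hx, h, hh, rfl⟩ := hcov a (Finset.mem_coe.1 ha)
      exact ⟨s, hs, ψ x + (h + k), ⟨x, hx, h + k, H.add_mem hh hk, rfl⟩, by
        simp only [add_assoc]⟩
    have hcf := cpr_finite hfin ψ H
    have h2 : ((T : Set Γ) + cpr (lat B) ψ H).ncard ≤ T.card * A.card := by
      have h3 : ((T : Set Γ) + cpr (lat B) ψ H) = ((T + hcf.toFinset : Finset Γ) : Set Γ) := by
        rw [Finset.coe_add, hcf.coe_toFinset]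
      rw [h3, Set.ncard_coe_finset]
      refine Finset.card_add_le.trans (Nat.mul_le_mul_left _ ?_)
      rw [← Set.ncard_eq_toFinset_card _ hcf]
      exact (ncard_cpr_le hfin ψ H).trans hvol
    have h4 : ((A : Set Γ) + (H : Set Γ)).ncard ≤ T.card * A.card :=
      (Set.ncard_le_ncard h1 ((Finset.finite_toSet T).add hcf)).trans h2
    rw [Real.rpow_natCast]
    calc ((((A : Set Γ) + (H : Set Γ)).ncard : ℕ) : ℝ) ≤ T.card * A.card := by exact_mod_cast h4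
      _ ≤ _ := mul_le_mul_of_nonneg_right hT' (Nat.cast_nonneg _)
  · have h1 : (S.card : ℝ) ≤ d := by
      have : S.card ≤ d := by
        rw [hS]
        exact Finset.card_image_le.trans (by simp)
      exact_mod_cast this
    exact h1.trans (hd.trans (mul_le_mul_of_nonneg_right hn hlog0))
  · rw [Real.rpow_natCast]
    have h1 : (A.filter (fun a => ∃ x ∈ lat B, ∃ h ∈ H, a = t + ψ x + h)).card ≤
        {a : Γ | a ∈ A ∧ a - t ∈ H ⊔ AddSubgroup.closure (S : Set Γ)}.ncard := by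
      rw [← Set.ncard_coe_finset]
      refine Set.ncard_le_ncard ?_ ((Finset.finite_toSet A).subset (fun a ha => ha.1))
      intro a ha
      obtain ⟨ha1, x, hx, h, hh, rfl⟩ := Finset.mem_filter.1 (Finset.mem_coe.1 ha)
      refine ⟨ha1, ?_⟩
      have e : t + ψ x + h - t = h + ψ x := by abel
      rw [e]
      refine AddSubgroup.add_mem_sup hh ?_
      have e2 : x = ∑ i, x i • (Pi.single i (1 : ℤ) : Fin d → ℤ) := by
        funext j
        simp [Finset.sum_apply, Pi.single_apply]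
      rw [e2, map_sum]
      refine AddSubgroup.sum_mem _ fun i _ => ?_
      rw [map_zsmul]
      refine AddSubgroup.zsmul_mem _ (AddSubgroup.subset_closure ?_) _
      rw [hS]
      exact Finset.mem_coe.2 (Finset.mem_image_of_mem _ (Finset.mem_univ i))
    calc (A.card : ℝ) ≤ T.card * (A.filter (fun a => ∃ x ∈ lat B, ∃ h ∈ H, a = t + ψ x + h)).card := by
          exact_mod_cast ht2
      _ ≤ (n * K ^ n) * ({a : Γ | a ∈ A ∧ a - t ∈ H ⊔ AddSubgroup.closure (S : Set Γ)}.ncard : ℝ) := by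
          refine mul_le_mul hT' (by exact_mod_cast h1) (Nat.cast_nonneg _) ?_
          exact (Nat.cast_nonneg _).trans hT'

/-- Q1 for lattices from Q1. -/
theorem qz_of_pfr (h : PFR.{u}) : ∃ C : ℝ, QZ C := by
  classical
  obtain ⟨C, hC⟩ := h
  refine ⟨C, ?_⟩
  intro d K B hB hK
  let i : (Fin d → ℤ) →+ ULift.{u} (Fin d → ℤ) := AddEquiv.ulift.symm.toAddMonoidHom
  let j : ULift.{u} (Fin d → ℤ) →+ (Fin d → ℤ) := AddEquiv.ulift.toAddMonoidHom
  have hi : Function.Injective i := AddEquiv.ulift.symm.injective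
  have hj : Function.Injective j := AddEquiv.ulift.injective
  have hji : (B.image i).image j = B := by
    rw [Finset.image_image]
    exact Finset.image_id
  have h1 : Concl C K (B.image i) := by
    refine hC (ULift.{u} (Fin d → ℤ)) K (B.image i) (hB.image i) ?_
    rw [← Finset.image_add i, Finset.card_image_of_injective _ hi,
      Finset.card_image_of_injective _ hi]
    exact hK
  rw [← hji]
  exact Pool.Agent.R424.EX.concl_map j hj h1

end Pool.Agent.H608VF
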