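import Pool.Agent.helper608_VF.V12

/-!
# The weak structure in groups without elements of odd order, and the converse of the transfer
-/

set_option autoImplicit false

namespace Pool.Agent.H608VF

open Finset
open Pool.Agent.Y806.DF Pool.Agent.R92.Star
open scoped Pointwise

universe u v

/-- groups without elements of odd order have the weak structure -/
theorem wstr_noodd : ∃ C : ℝ, ∀ (Γ : Type u) [AddCommGroup Γ] [DecidableEq Γ],
    (∀ x : Γ, (∃ k : ℕ, Odd k ∧ k • x = 0) → x = 0) → ∀ (K : ℝ) (A : Finset Γ), A.Nonempty →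
    ((A + A).card : ℝ) ≤ K * A.card → WStr C K A := by
  classical
  refine ⟨((480 : ℕ) : ℝ), ?_⟩
  intro Γ _ _ htor K A hA hK
  have hK1 := one_le_K hA hK
  have hK0 : 0 < K := by linarith
  obtain ⟨P, S, T, hP, hper, hS, hT, hcov⟩ := weak_str hA hK
  have hcov' : ∀ a ∈ A, ∃ t ∈ T, a - t ∈ P ⊔ AddSubgroup.closure (S : Set Γ) := by
    intro a ha
    obtain ⟨t, ht, o, ho, hao⟩ := hcov a ha
    rw [htor o ho, sub_zero] at hao
    exact ⟨t, ht, hao⟩
  obtain ⟨t, ht, hpop⟩ := pigeon T A A hA
    (fun t a => a - t ∈ P ⊔ AddSubgroup.closure (S : Set Γ)) subset_rfl hcov'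
  refine ⟨P, S, t, hP, ?_, ?_, ?_⟩
  · rw [Real.rpow_natCast]
    refine hper.trans (mul_le_mul_of_nonneg_right ?_ (Nat.cast_nonneg _))
    have h1 : K ^ 370 ≤ K ^ 480 := pow_le_pow_right₀ hK1 (by norm_num)
    have h2 : (0 : ℝ) ≤ K ^ 480 := by positivity
    push_cast
    linarith
  · refine hS.trans ?_
    rw [Real.log_mul (by norm_num) hK0.ne']
    have h1 := Real.log_two_gt_d9
    push_cast
    linarith
  · rw [Real.rpow_natCast]
    have h1 : ((A.filter (fun a => a - t ∈ P ⊔ AddSubgroup.closure (S : Set Γ))).card : ℝ) =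
        ({a : Γ | a ∈ A ∧ a - t ∈ P ⊔ AddSubgroup.closure (S : Set Γ)}.ncard : ℝ) := by
      rw [← Set.ncard_coe_finset, Finset.coe_filter]
    have h2 : (A.card : ℝ) ≤ T.card *
        ((A.filter (fun a => a - t ∈ P ⊔ AddSubgroup.closure (S : Set Γ))).card : ℝ) := by
      exact_mod_cast hpop
    rw [h1] at h2
    refine h2.trans (mul_le_mul_of_nonneg_right ?_ (Nat.cast_nonneg _))
    have h3 : K ^ 185 ≤ K ^ 480 := pow_le_pow_right₀ hK1 (by norm_num)
    have h4 : (0 : ℝ) ≤ K ^ 480 := by positivity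
    push_cast
    linarith

/-- the lattices are in the class of the transfer theorem -/
theorem qz_of_class (m : ℕ) (h : ∃ C : ℝ, ∀ (Γ : Type u) [AddCommGroup Γ] [DecidableEq Γ],
    (∀ x : Γ, (∃ k : ℕ, Odd k ∧ k • x = 0) → m • x = 0) → ∀ (K : ℝ) (A : Finset Γ),
      A.Nonempty → ((A + A).card : ℝ) ≤ K * A.card → Concl C K A) : ∃ C : ℝ, QZ C := by
  classical
  obtain ⟨C, hC⟩ := h
  refine ⟨C, ?_⟩
  intro d K B hB hK
  let i : (Fin d → ℤ) →+ ULift.{u} (Fin d → ℤ) := AddEquiv.ulift.symm.toAddMonoidHom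
  let j : ULift.{u} (Fin d → ℤ) →+ (Fin d → ℤ) := AddEquiv.ulift.toAddMonoidHom
  have hi : Function.Injective i := AddEquiv.ulift.symm.injective
  have hj : Function.Injective j := AddEquiv.ulift.injective
  have hji : (B.image i).image j = B := by
    rw [Finset.image_image]
    exact Finset.image_id
  have h1 : Concl C K (B.image i) := by
    refine hC (ULift.{u} (Fin d → ℤ)) ?_ K (B.image i) (hB.image i) ?_
    · rintro x ⟨k, hk, hx⟩
      have h0 : x = 0 := by
        refine hj ?_
        rw [map_zero]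
        have h3 : k • j x = 0 := by rw [← map_nsmul, hx, map_zero]
        funext l
        have h4 : k • (j x) l = 0 := congrFun h3 l
        rw [nsmul_eq_mul] at h4
        rcases mul_eq_zero.1 h4 with h5 | h5
        · exfalso
          have h6 : k = 0 := by exact_mod_cast h5
          rw [h6] at hk
          exact (Nat.not_odd_zero) hk
        · exact h5
      rw [h0, smul_zero]
    · rw [← Finset.image_add i, Finset.card_image_of_injective _ hi,
        Finset.card_image_of_injective _ hi]
      exact hK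
  rw [← hji]
  exact Pool.Agent.R424.EX.concl_map j hj h1

end Pool.Agent.H608VF
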