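import Pool.Agent.helper608_VF.V1

/-!
# Numbers of lattice points of nested symmetric convex bodies
-/

set_option autoImplicit false

namespace Pool.Agent.H608VF

open Finset MeasureTheory Matrix
open Pool.Agent.Y806.DF
open scoped Pointwise ENNReal

theorem vol_smul {r : ℕ} {t : ℝ} (ht : 0 ≤ t) (A : Set (Fin r → ℝ)) :
    (volume (t • A)).toReal = t ^ r * (volume A).toReal := by
  rw [Measure.addHaar_smul, Module.finrank_pi, Fintype.card_fin, ENNReal.toReal_mul,
    ENNReal.toReal_ofReal (abs_nonneg _), abs_of_nonneg (pow_nonneg ht r)]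

/-- comparison of the numbers of lattice points by volumes -/
theorem count {r : ℕ} {M B : Set (Fin r → ℝ)} (hM : Sym M) (hB : Sym B) (hMB : M ⊆ B) :
    (num B 1 : ℝ) * (volume M).toReal ≤ 4 ^ r * (volume B).toReal * num M 1 := by
  classical
  have hBf := hB.finite 1
  have hMf := hM.finite 1
  have eB : num B 1 = hBf.toFinset.card := Set.ncard_eq_toFinset_card _ hBf
  set L := hBf.toFinset with hL
  have hMc := (hM.smul (1 / 2)).comp
  have hBc := (hB.smul 2).comp
  have hMm : MeasurableSet ((1 / 2 : ℝ) • M) := hMc.isClosed.measurableSet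
  have hBm : MeasurableSet ((2 : ℝ) • B) := hBc.isClosed.measurableSet
  -- translates
  have htr : ∀ v : Fin r → ℤ, MeasurableSet ((fun x => x - re v) ⁻¹' ((1 / 2 : ℝ) • M)) := fun v =>
    (measurable_id.sub_const _) hMm
  have hvol : ∀ v : Fin r → ℤ, volume ((fun x => x - re v) ⁻¹' ((1 / 2 : ℝ) • M)) =
      volume ((1 / 2 : ℝ) • M) := by
    intro v
    have h1 := MeasureTheory.measure_preimage_add_right (volume : Measure (Fin r → ℝ)) (-re v)
      ((1 / 2 : ℝ) • M)
    simpa [sub_eq_add_neg] using h1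
  have hpt : ∀ x : Fin r → ℝ, ∑ v ∈ L, ((fun x => x - re v) ⁻¹' ((1 / 2 : ℝ) • M)).indicator
      (fun _ => (1 : ℝ≥0∞)) x ≤ ((2 : ℝ) • B).indicator (fun _ => (num M 1 : ℝ≥0∞)) x := by
    intro x
    have h1 : ∑ v ∈ L, ((fun x => x - re v) ⁻¹' ((1 / 2 : ℝ) • M)).indicator
        (fun _ => (1 : ℝ≥0∞)) x = ((L.filter (fun v => x - re v ∈ (1 / 2 : ℝ) • M)).card : ℝ≥0∞) := by
      rw [Finset.card_filter]
      push_cast
      refine Finset.sum_congr rfl fun v _ => ?_
      simp only [Set.indicator, Set.mem_preimage]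
    rw [h1]
    by_cases hne : (L.filter (fun v => x - re v ∈ (1 / 2 : ℝ) • M)).Nonempty
    · obtain ⟨v0, hv0⟩ := hne
      obtain ⟨hv0L, hv0M⟩ := Finset.mem_filter.1 hv0
      have hx : x ∈ (2 : ℝ) • B := by
        have h2 : re v0 ∈ (1 : ℝ) • B := by
          have h20 : v0 ∈ lat ((1 : ℝ) • B) := (Set.Finite.mem_toFinset _).1 hv0L
          exact h20
        have h3 : x - re v0 ∈ (1 : ℝ) • B := by
          refine hB.mono (by norm_num) (by norm_num : (1 / 2 : ℝ) ≤ 1) ?_
          exact Set.smul_set_mono hMB hv0M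
        have h4 : (2 : ℝ) • B = (1 : ℝ) • B + (1 : ℝ) • B := by
          rw [← hB.conv.add_smul (by norm_num) (by norm_num)]; norm_num
        rw [h4]
        exact ⟨re v0, h2, x - re v0, h3, by simp⟩
      rw [Set.indicator_of_mem hx]
      have h5 : (L.filter (fun v => x - re v ∈ (1 / 2 : ℝ) • M)).card ≤ num M 1 := by
        have eM : num M 1 = hMf.toFinset.card := Set.ncard_eq_toFinset_card _ hMf
        rw [eM]
        refine Finset.card_le_card_of_injOn (fun v => v - v0) ?_ ?_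
        · intro v hv
          obtain ⟨-, hvM⟩ := Finset.mem_filter.1 (Finset.mem_coe.1 hv)
          rw [Finset.mem_coe, Set.Finite.mem_toFinset]
          show re (v - v0) ∈ (1 : ℝ) • M
          have h6 : (1 : ℝ) • M = (1 / 2 : ℝ) • M + (1 / 2 : ℝ) • M := by
            rw [← hM.conv.add_smul (by norm_num) (by norm_num)]; norm_num
          rw [h6]
          refine ⟨x - re v0, hv0M, -(x - re v), ?_, ?_⟩
          · exact (hM.smul (1 / 2)).symm _ hvM
          · rw [re_sub]; simp only; abel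
        · intro v _ w _ h
          exact sub_left_injective h
      exact_mod_cast h5
    · rw [Finset.not_nonempty_iff_eq_empty.1 hne]
      simp
  have hsum : ((L.card : ℝ≥0∞)) * volume ((1 / 2 : ℝ) • M) ≤
      (num M 1 : ℝ≥0∞) * volume ((2 : ℝ) • B) := by
    calc ((L.card : ℝ≥0∞)) * volume ((1 / 2 : ℝ) • M)
        = ∑ v ∈ L, ∫⁻ x, ((fun x => x - re v) ⁻¹' ((1 / 2 : ℝ) • M)).indicator
            (fun _ => (1 : ℝ≥0∞)) x := by
          rw [Finset.sum_congr rfl fun v _ => by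
            rw [lintegral_indicator (htr v), setLIntegral_one, hvol v]]
          rw [Finset.sum_const, nsmul_eq_mul]
      _ = ∫⁻ x, ∑ v ∈ L, ((fun x => x - re v) ⁻¹' ((1 / 2 : ℝ) • M)).indicator
            (fun _ => (1 : ℝ≥0∞)) x := by
          rw [lintegral_finsetSum]
          intro v _
          exact measurable_const.indicator (htr v)
      _ ≤ ∫⁻ x, ((2 : ℝ) • B).indicator (fun _ => (num M 1 : ℝ≥0∞)) x := lintegral_mono hpt
      _ = (num M 1 : ℝ≥0∞) * volume ((2 : ℝ) • B) := by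
          rw [lintegral_indicator hBm, setLIntegral_const]
  have hBfin : volume ((2 : ℝ) • B) ≠ ⊤ := hBc.measure_lt_top.ne
  have h7 := ENNReal.toReal_mono (ENNReal.mul_ne_top (ENNReal.natCast_ne_top _) hBfin) hsum
  rw [ENNReal.toReal_mul, ENNReal.toReal_mul, vol_smul (by norm_num), vol_smul (by norm_num),
    ENNReal.toReal_natCast, ENNReal.toReal_natCast, ← eB] at h7
  have h8 : (0 : ℝ) < 2 ^ r := by positivity
  have e4 : (4 : ℝ) ^ r = 2 ^ r * 2 ^ r := by rw [← mul_pow]; norm_num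
  have e2 : (1 / 2 : ℝ) ^ r * 2 ^ r = 1 := by rw [← mul_pow]; norm_num
  calc (num B 1 : ℝ) * (volume M).toReal
      = 2 ^ r * ((num B 1 : ℝ) * ((1 / 2) ^ r * (volume M).toReal)) := by
        have : (num B 1 : ℝ) * (volume M).toReal = ((1 / 2 : ℝ) ^ r * 2 ^ r) *
          ((num B 1 : ℝ) * (volume M).toReal) := by rw [e2, one_mul]
        rw [this]; ring
    _ ≤ 2 ^ r * ((num M 1 : ℝ) * (2 ^ r * (volume B).toReal)) :=
        mul_le_mul_of_nonneg_left h7 h8.le
    _ = 4 ^ r * (volume B).toReal * num M 1 := by rw [e4]; ring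

/-- the ellipsoid of Milman -/
theorem milman {r : ℕ} (hr : 0 < r) {B : Set (Fin r → ℝ)} (hB : Body B) :
    ∃ S : Matrix (Fin r) (Fin r) ℝ, S.det ≠ 0 ∧ 0 < (volume (B ∩ El S)).toReal ∧
      (volume B).toReal ≤ 12 ^ r * (volume (B ∩ El S)).toReal ∧
      (volume (El S)).toReal ≤ 105 ^ r * (volume (B ∩ El S)).toReal := by
  obtain ⟨hconv, hcomp, hint, hsymm⟩ := hB
  have hCB : Pool.Agent.H845R2.CB B := ⟨hcomp, hconv, hsymm, hint⟩
  obtain ⟨S, hS, h1, h2⟩ := hCB.milman_position (by rw [Fintype.card_fin]; exact hr)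
  rw [Fintype.card_fin] at h1 h2
  refine ⟨S, hS, ?_⟩
  have hd : 0 < |S.det| := abs_pos.2 hS
  have hu : IsUnit S.det := isUnit_iff_ne_zero.2 hS
  -- images
  have e1 : S.mulVec '' B ∩ {y | y ⬝ᵥ y ≤ 2 * r} = S.mulVec '' (B ∩ El S) := by
    ext y
    constructor
    · rintro ⟨⟨x, hx, rfl⟩, hy⟩
      exact ⟨x, ⟨hx, hy⟩, rfl⟩
    · rintro ⟨x, ⟨hx, hy⟩, rfl⟩
      exact ⟨⟨x, hx, rfl⟩, hy⟩
  have e2 : S.mulVec '' (El S) = {y : Fin r → ℝ | y ⬝ᵥ y ≤ 2 * r} := by
    ext y
    constructor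
    · rintro ⟨x, hx, rfl⟩
      exact hx
    · intro hy
      refine ⟨S⁻¹.mulVec y, ?_, ?_⟩
      · show S.mulVec (S⁻¹.mulVec y) ⬝ᵥ S.mulVec (S⁻¹.mulVec y) ≤ 2 * r
        rw [Matrix.mulVec_mulVec, Matrix.mul_nonsing_inv S hu, Matrix.one_mulVec]
        exact hy
      · rw [Matrix.mulVec_mulVec, Matrix.mul_nonsing_inv S hu, Matrix.one_mulVec]
  rw [e1, vol_image, vol_image] at h2
  rw [vol_image] at h1
  have h3 := vol_ball r
  rw [← e2, vol_image] at h3
  set v := (volume (B ∩ El S)).toReal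
  set b := (volume B).toReal
  set w := (volume (El S)).toReal
  have hb : 0 ≤ b := ENNReal.toReal_nonneg
  have hv : 0 ≤ v := ENNReal.toReal_nonneg
  have hw : 0 ≤ w := ENNReal.toReal_nonneg
  have hr1 : (1 : ℝ) ≤ r := by exact_mod_cast hr
  have hexp : Real.exp r = Real.exp 1 ^ r := by
    rw [← Real.exp_nat_mul, mul_one]
  have hE : Real.exp 1 ≤ 2.7182818286 := Real.exp_one_lt_d9.le
  have hE0 : 0 < Real.exp 1 := Real.exp_pos 1
  have two_le : (2 : ℝ) ≤ 2 ^ r := by
    calc (2 : ℝ) = 2 ^ 1 := by norm_num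
      _ ≤ 2 ^ r := pow_le_pow_right₀ (by norm_num) hr
  -- first inequality
  have i1 : b ≤ 12 ^ r * v := by
    have h4 : b ≤ 2 * Real.exp r * 2 ^ r * v := by
      have h5 : |S.det| * b ≤ |S.det| * (2 * Real.exp r * 2 ^ r * v) := by
        calc |S.det| * b ≤ 2 * Real.exp r * 2 ^ r * (|S.det| * v) := h2
          _ = _ := by ring
      exact le_of_mul_le_mul_left h5 hd
    refine h4.trans (mul_le_mul_of_nonneg_right ?_ hv)
    rw [hexp]
    calc 2 * Real.exp 1 ^ r * 2 ^ r ≤ 2 ^ r * Real.exp 1 ^ r * 2 ^ r := by gcongr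
      _ = (4 * Real.exp 1) ^ r := by
        rw [← mul_pow, ← mul_pow]; congr 1; ring
      _ ≤ 12 ^ r := by
        apply pow_le_pow_left₀ (by positivity)
        linarith
  -- the number `|det S| v` is not small
  have i2 : 1 ≤ (15 : ℝ) ^ r * (|S.det| * v) := by
    have h4 : Real.sqrt (Real.pi / 4) ^ r ≤ |S.det| * b := by
      apply abs_le_of_sq_le_sq' _ (by positivity) |>.2
      calc (Real.sqrt (Real.pi / 4) ^ r) ^ 2 = (Real.pi / 4) ^ r := by
            rw [← pow_mul, mul_comm r 2, pow_mul, Real.sq_sqrt (by positivity)]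
        _ ≤ (|S.det| * b) ^ 2 := h1
    have h5 : (4 / 5 : ℝ) ≤ Real.sqrt (Real.pi / 4) := by
      apply Real.le_sqrt_of_sq_le
      have := Real.pi_gt_d2
      nlinarith
    have h6 : (4 / 5 : ℝ) ^ r ≤ |S.det| * b :=
      (pow_le_pow_left₀ (by norm_num) h5 r).trans h4
    have h7 : |S.det| * b ≤ 12 ^ r * (|S.det| * v) := by
      calc |S.det| * b ≤ |S.det| * (12 ^ r * v) := mul_le_mul_of_nonneg_left i1 hd.le
        _ = _ := by ring
    have h8 : (1 : ℝ) = (5 / 4) ^ r * (4 / 5) ^ r := by rw [← mul_pow]; norm_num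
    calc (1 : ℝ) = (5 / 4) ^ r * (4 / 5) ^ r := h8
      _ ≤ (5 / 4) ^ r * (12 ^ r * (|S.det| * v)) :=
        mul_le_mul_of_nonneg_left (h6.trans h7) (by positivity)
      _ = (15 : ℝ) ^ r * (|S.det| * v) := by
        rw [← mul_assoc, ← mul_pow]; norm_num
  have hv0 : 0 < v := by
    by_contra hcon
    have : v = 0 := le_antisymm (not_lt.1 hcon) hv
    rw [this, mul_zero, mul_zero] at i2
    linarith
  refine ⟨hv0, i1, ?_⟩
  have h9 : |S.det| * w ≤ |S.det| * (105 ^ r * v) := by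
    have hs : Real.sqrt (2 * Real.pi) ≤ 2.51 := by
      rw [Real.sqrt_le_left (by norm_num)]
      have := Real.pi_lt_d2
      nlinarith
    have h10 : Real.exp r * Real.sqrt (2 * Real.pi) ^ r ≤ (7 : ℝ) ^ r * 1 := by
      rw [hexp, ← mul_pow, mul_one]
      apply pow_le_pow_left₀ (by positivity)
      calc Real.exp 1 * Real.sqrt (2 * Real.pi) ≤ 2.7182818286 * 2.51 :=
            mul_le_mul hE hs (Real.sqrt_nonneg _) (by norm_num)
        _ ≤ _ := by norm_num
    have h11 : (7 : ℝ) ^ r * 1 ≤ (7 : ℝ) ^ r * ((15 : ℝ) ^ r * (|S.det| * v)) :=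
      mul_le_mul_of_nonneg_left i2 (by positivity)
    calc |S.det| * w ≤ _ := h3
      _ ≤ _ := h10
      _ ≤ _ := h11
      _ = |S.det| * (105 ^ r * v) := by
        rw [← mul_assoc, ← mul_pow]
        norm_num
        ring
  exact le_of_mul_le_mul_left h9 hd

end Pool.Agent.H608VF
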