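import Pool.Agent.helper608_VF.V2

/-!
# Voronoi cells: images of convex progressions are images of convex progressions of the same size
-/

set_option autoImplicit false

namespace Pool.Agent.H608VF

open Finset MeasureTheory Matrix
open Pool.Agent.Y806.DF
open scoped Pointwise ENNReal

section form

variable {r : ℕ} (S : Matrix (Fin r) (Fin r) ℝ)

/-- the bilinear form of the matrix -/
def bf (x y : Fin r → ℝ) : ℝ := S.mulVec x ⬝ᵥ S.mulVec y

theorem bf_add (x y z : Fin r → ℝ) : bf S x (y + z) = bf S x y + bf S x z := by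
  unfold bf; rw [Matrix.mulVec_add, dotProduct_add]

theorem bf_symm (x y : Fin r → ℝ) : bf S x y = bf S y x := by
  unfold bf; rw [dotProduct_comm]

theorem bf_smul (c : ℝ) (x y : Fin r → ℝ) : bf S x (c • y) = c * bf S x y := by
  unfold bf; rw [Matrix.mulVec_smul, dotProduct_smul, smul_eq_mul]

theorem bf_neg (x y : Fin r → ℝ) : bf S x (-y) = -bf S x y := by
  have := bf_smul S (-1) x y
  simpa using this

theorem bf_sub (x y z : Fin r → ℝ) : bf S x (y - z) = bf S x y - bf S x z := by
  rw [sub_eq_add_neg, bf_add, bf_neg, sub_eq_add_neg]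

theorem bf_nonneg (x : Fin r → ℝ) : 0 ≤ bf S x x := by
  unfold bf dotProduct
  exact Finset.sum_nonneg fun i _ => mul_self_nonneg _

theorem bf_self_sub (x y : Fin r → ℝ) : bf S (x - y) (x - y) = bf S x x - 2 * bf S x y + bf S y y := by
  rw [bf_sub, bf_symm S (x - y) x, bf_symm S (x - y) y, bf_sub, bf_sub, bf_symm S y x]
  ring

theorem mem_El {x : Fin r → ℝ} : x ∈ El S ↔ bf S x x ≤ 2 * r := Iff.rfl

theorem cont_bf (y : Fin r → ℝ) : Continuous fun x => bf S x y := by
  unfold bf dotProduct Matrix.mulVec dotProduct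
  fun_prop

theorem cont_bf2 : Continuous fun x : Fin r → ℝ => bf S x x := by
  unfold bf dotProduct Matrix.mulVec dotProduct
  fun_prop

variable {S}

theorem bf_eq_zero (hS : S.det ≠ 0) {x : Fin r → ℝ} (h : bf S x x ≤ 0) : x = 0 := by
  have h1 : S.mulVec x ⬝ᵥ S.mulVec x = 0 := le_antisymm h (bf_nonneg S x)
  have h2 : S.mulVec x = 0 := dotProduct_self_eq_zero.1 h1
  exact Matrix.eq_zero_of_mulVec_eq_zero hS h2

theorem sym_El (hS : S.det ≠ 0) : Sym (El S) where
  conv := by
    intro x hx y hy a b ha hb hab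
    rw [mem_El] at hx hy ⊢
    have h1 : bf S (a • x + b • y) (a • x + b • y) =
        a * bf S x x + b * bf S y y - a * b * bf S (x - y) (x - y) := by
      rw [bf_self_sub, bf_add, bf_symm S (a • x + b • y) (a • x), bf_symm S (a • x + b • y) (b • y),
        bf_add, bf_add, bf_smul, bf_smul, bf_smul, bf_smul, bf_symm S (a • x) x, bf_symm S (b • y) x,
        bf_symm S (a • x) y, bf_symm S (b • y) y, bf_smul, bf_smul, bf_smul, bf_smul, bf_symm S y x]
      have hb' : b = 1 - a := by linarith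
      rw [hb']
      ring
    rw [h1]
    have h2 := bf_nonneg S (x - y)
    have h3 : 0 ≤ a * b * bf S (x - y) (x - y) := by positivity
    have h4 : a * bf S x x ≤ a * (2 * r) := mul_le_mul_of_nonneg_left hx ha
    have h5 : b * bf S y y ≤ b * (2 * r) := mul_le_mul_of_nonneg_left hy hb
    have h6 : a * (2 * (r : ℝ)) + b * (2 * r) = 2 * r := by rw [← add_mul, hab, one_mul]
    linarith
  comp := by
    have hu : IsUnit S.det := isUnit_iff_ne_zero.2 hS
    have h1 : El S ⊆ (fun y => S⁻¹.mulVec y) '' {y : Fin r → ℝ | y ⬝ᵥ y ≤ 2 * r} := by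
      intro x hx
      refine ⟨S.mulVec x, hx, ?_⟩
      show S⁻¹.mulVec (S.mulVec x) = x
      rw [Matrix.mulVec_mulVec, Matrix.nonsing_inv_mul S hu, Matrix.one_mulVec]
    have h2 : IsCompact {y : Fin r → ℝ | y ⬝ᵥ y ≤ 2 * r} := by
      refine Metric.isCompact_of_isClosed_isBounded ?_ ?_
      · refine isClosed_le ?_ continuous_const
        unfold dotProduct
        fun_prop
      · refine (Metric.isBounded_closedBall (x := (0 : Fin r → ℝ)) (r := 2 * r + 1)).subset ?_
        intro y hy
        rw [mem_closedBall_zero_iff, pi_norm_le_iff_of_nonneg (by positivity)]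
        intro i
        have h1 : y i ^ 2 ≤ y ⬝ᵥ y := by
          unfold dotProduct
          have h2 := Finset.single_le_sum (f := fun j => y j * y j) (fun j _ => mul_self_nonneg (y j))
            (Finset.mem_univ i)
          calc y i ^ 2 = y i * y i := by ring
            _ ≤ _ := h2
        have h2 : y ⬝ᵥ y ≤ 2 * r := hy
        rw [Real.norm_eq_abs]
        have h3 : (0 : ℝ) ≤ r := Nat.cast_nonneg r
        exact abs_le_of_sq_le_sq (by nlinarith) (by positivity)
    have h3 : IsCompact ((fun y => S⁻¹.mulVec y) '' {y : Fin r → ℝ | y ⬝ᵥ y ≤ 2 * r}) := by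
      apply h2.image
      unfold Matrix.mulVec dotProduct
      fun_prop
    exact h3.of_isClosed_subset (isClosed_le (cont_bf2 S) continuous_const) h1
  symm := by
    intro x hx
    rw [mem_El] at hx ⊢
    rw [bf_neg, bf_symm, bf_neg, neg_neg]
    exact hx
  ne := ⟨0, by
    rw [mem_El]
    have : bf S (0 : Fin r → ℝ) 0 = 0 := by unfold bf; simp
    rw [this]; positivity⟩

/-- the Voronoi cell of the kernel of `ψ` -/
def Vor (S : Matrix (Fin r) (Fin r) ℝ) {Γ : Type*} [AddCommGroup Γ] (ψ : (Fin r → ℤ) →+ Γ) :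
    Set (Fin r → ℝ) :=
  {x | ∀ l : Fin r → ℤ, ψ l = 0 → 2 * bf S x (re l) ≤ bf S (re l) (re l)}

theorem sym_cell (hS : S.det ≠ 0) {Γ : Type*} [AddCommGroup Γ] (ψ : (Fin r → ℤ) →+ Γ) :
    Sym (El S ∩ Vor S ψ) where
  conv := by
    refine (sym_El hS).conv.inter ?_
    intro x hx y hy a b ha hb hab l hl
    have h1 := hx l hl
    have h2 := hy l hl
    rw [bf_symm, bf_add, bf_smul, bf_smul, bf_symm S (re l) x, bf_symm S (re l) y]
    calc 2 * (a * bf S x (re l) + b * bf S y (re l))
        = a * (2 * bf S x (re l)) + b * (2 * bf S y (re l)) := by ring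
      _ ≤ a * bf S (re l) (re l) + b * bf S (re l) (re l) :=
        add_le_add (mul_le_mul_of_nonneg_left h1 ha) (mul_le_mul_of_nonneg_left h2 hb)
      _ = _ := by rw [← add_mul, hab, one_mul]
  comp := by
    refine (sym_El hS).comp.inter_right ?_
    have : Vor S ψ = ⋂ l : {l : Fin r → ℤ // ψ l = 0},
        {x | 2 * bf S x (re l.1) ≤ bf S (re l.1) (re l.1)} := by
      ext x
      simp only [Vor, Set.mem_setOf_eq, Set.mem_iInter, Subtype.forall]
    rw [this]
    exact isClosed_iInter fun l => isClosed_le ((cont_bf S _).const_mul 2 |> fun h => by simpa using h)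
      continuous_const
  symm := by
    rintro x ⟨hx1, hx2⟩
    refine ⟨(sym_El hS).symm x hx1, ?_⟩
    intro l hl
    have h1 := hx2 (-l) (by rw [map_neg, hl, neg_zero])
    rw [re_neg, bf_neg, bf_symm S (-re l) (-re l), bf_neg, bf_symm S (-re l) (re l), bf_neg,
      neg_neg] at h1
    rw [bf_symm S (-x), bf_neg, bf_symm S (re l) x]
    exact h1
  ne := ⟨0, (sym_El hS).zero, by
    intro l _
    have : bf S (0 : Fin r → ℝ) (re l) = 0 := by unfold bf; simp
    rw [this, mul_zero]
    exact bf_nonneg S _⟩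

end form

/-- covering a larger body -/
theorem cov_body {r : ℕ} {M B : Set (Fin r → ℝ)} (hM : Sym M) (hB : Sym B) (hMB : M ⊆ B) {D : ℝ}
    (hD : (num B 1 : ℝ) ≤ D * num M 1) :
    ∃ F : Finset (Fin r → ℤ), (F.card : ℝ) ≤ 16 ^ r * D ∧
      ∀ v ∈ lat B, ∃ f ∈ F, ∃ w ∈ lat M, v = f + w := by
  classical
  have hD0 : 0 ≤ D := by
    by_contra hcon
    push Not at hcon
    have h1 : (0 : ℝ) < num B 1 := by exact_mod_cast num_pos hB 1
    have h2 : (0 : ℝ) < num M 1 := by exact_mod_cast num_pos hM 1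
    nlinarith
  have h1 := hB.finite 1
  have h2 := hM.finite (1 / 2)
  have h4 := hB.finite 2
  have e2 : num M (1 / 2) = h2.toFinset.card := Set.ncard_eq_toFinset_card _ h2
  have e4 : num B 2 = h4.toFinset.card := Set.ncard_eq_toFinset_card _ h4
  have hpos := num_pos hM (1 / 2)
  have hne : h2.toFinset.Nonempty := Finset.card_pos.1 (by rw [← e2]; exact hpos)
  have hsub : h1.toFinset + h2.toFinset ⊆ h4.toFinset := by
    intro x hx
    obtain ⟨a, ha, b, hb, rfl⟩ := Finset.mem_add.1 hx
    rw [Set.Finite.mem_toFinset] at ha hb ⊢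
    have hb' : b ∈ lat ((1 : ℝ) • B) := by
      refine lat_mono (hB.mono (by norm_num) (by norm_num : (1 / 2 : ℝ) ≤ 1)) ?_
      exact lat_mono (Set.smul_set_mono hMB) hb
    have h5 := hB.add (by norm_num) (by norm_num) ha hb'
    have e : (1 : ℝ) + 1 = 2 := by norm_num
    rw [e] at h5
    exact h5
  have n1 : (num B 2 : ℝ) ≤ 4 ^ r * num B 1 := by
    have := num_double hB (t := 1) (by norm_num)
    rw [mul_one] at this
    exact_mod_cast this
  have n2 : (num M 1 : ℝ) ≤ 4 ^ r * num M (1 / 2) := by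
    have := num_double hM (t := 1 / 2) (by norm_num)
    have e : (2 : ℝ) * (1 / 2) = 1 := by norm_num
    rw [e] at this
    exact_mod_cast this
  have hle : ((h1.toFinset + h2.toFinset).card : ℝ) ≤ (16 ^ r * D) * h2.toFinset.card := by
    calc ((h1.toFinset + h2.toFinset).card : ℝ) ≤ num B 2 := by
          rw [e4]; exact_mod_cast Finset.card_le_card hsub
      _ ≤ 4 ^ r * num B 1 := n1
      _ ≤ 4 ^ r * (D * num M 1) := mul_le_mul_of_nonneg_left hD (by positivity)
      _ ≤ 4 ^ r * (D * (4 ^ r * num M (1 / 2))) :=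
        mul_le_mul_of_nonneg_left (mul_le_mul_of_nonneg_left n2 hD0) (by positivity)
      _ = (16 ^ r * D) * num M (1 / 2) := by
        have : (16 : ℝ) ^ r = 4 ^ r * 4 ^ r := by rw [← mul_pow]; norm_num
        rw [this]; ring
      _ = (16 ^ r * D) * h2.toFinset.card := by rw [e2]
  obtain ⟨F, -, hF2, hF3⟩ := Finset.ruzsa_covering_add hne hle
  refine ⟨F, hF2, ?_⟩
  intro v hv
  have hv' : v ∈ h1.toFinset := by
    rw [Set.Finite.mem_toFinset, one_smul]; exact hv
  obtain ⟨f, hf, d, hd, rfl⟩ := Finset.mem_add.1 (hF3 hv')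
  obtain ⟨a, ha, b, hb, rfl⟩ := Finset.mem_sub.1 hd
  rw [Set.Finite.mem_toFinset] at ha hb
  refine ⟨f, hf, a - b, ?_, rfl⟩
  have h5 := hM.sub (by norm_num) (by norm_num) ha hb
  have e : (1 / 2 : ℝ) + 1 / 2 = 1 := by norm_num
  rw [e, one_smul] at h5
  exact h5

end Pool.Agent.H608VF
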