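import Pool.Agent.helper608_VF.V3

/-!
# The volume comes for free: the core
-/

set_option autoImplicit false

namespace Pool.Agent.H608VF

open Finset MeasureTheory Matrix
open Pool.Agent.Y806.DF
open scoped Pointwise ENNReal

/-- the integer points of `B` have an image of the same size as the integer points of `Q`. -/
theorem core_body {r : ℕ} (hr : 0 < r) {B : Set (Fin r → ℝ)} (hB : Body B) {Γ : Type*}
    [AddCommGroup Γ] (ψ : (Fin r → ℤ) →+ Γ) :
    ∃ (Q : Set (Fin r → ℝ)) (F : Finset (Fin r → ℤ)), Sym Q ∧ (F.card : ℝ) ≤ 49152 ^ r ∧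
      ((lat Q).ncard : ℝ) ≤ 6720 ^ r * (ψ '' lat B).ncard ∧
      ∀ v ∈ lat B, ∃ f ∈ F, ∃ w ∈ lat Q, ψ v = ψ f + ψ w := by
  classical
  obtain ⟨S, hS, hv0, hvB, hvE⟩ := milman hr hB
  have hBs : Sym B := ⟨hB.1, hB.2.1, hB.2.2.2, hB.2.2.1.mono interior_subset⟩
  have hE := sym_El hS
  have hM : Sym (B ∩ El S) :=
    ⟨hBs.conv.inter hE.conv, hBs.comp.inter_right hE.comp.isClosed,
      fun x hx => ⟨hBs.symm x hx.1, hE.symm x hx.2⟩, ⟨0, hBs.zero, hE.zero⟩⟩
  set M := B ∩ El S with hMdef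
  have hC : Sym (El S ∩ Vor S ψ) := sym_cell hS ψ
  set Q' := El S ∩ Vor S ψ with hQ'
  -- lattice points
  have nB : (num B 1 : ℝ) ≤ 48 ^ r * num M 1 := by
    have h1 := count hM hBs Set.inter_subset_left
    have h2 : (num B 1 : ℝ) * (volume M).toReal ≤ (48 ^ r * num M 1) * (volume M).toReal := by
      calc (num B 1 : ℝ) * (volume M).toReal ≤ 4 ^ r * (volume B).toReal * num M 1 := h1
        _ ≤ 4 ^ r * (12 ^ r * (volume M).toReal) * num M 1 := by gcongr
        _ = (48 ^ r * num M 1) * (volume M).toReal := by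
          have : (48 : ℝ) ^ r = 4 ^ r * 12 ^ r := by rw [← mul_pow]; norm_num
          rw [this]; ring
    exact le_of_mul_le_mul_right h2 hv0
  have nE : (num (El S) 1 : ℝ) ≤ 420 ^ r * num M 1 := by
    have h1 := count hM hE Set.inter_subset_right
    have h2 : (num (El S) 1 : ℝ) * (volume M).toReal ≤ (420 ^ r * num M 1) * (volume M).toReal := by
      calc (num (El S) 1 : ℝ) * (volume M).toReal ≤ 4 ^ r * (volume (El S)).toReal * num M 1 := h1
        _ ≤ 4 ^ r * (105 ^ r * (volume M).toReal) * num M 1 := by gcongr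
        _ = (420 ^ r * num M 1) * (volume M).toReal := by
          have : (420 : ℝ) ^ r = 4 ^ r * 105 ^ r := by rw [← mul_pow]; norm_num
          rw [this]; ring
    exact le_of_mul_le_mul_right h2 hv0
  obtain ⟨F1, hF1, hc1⟩ := cov_body hM hBs Set.inter_subset_left nB
  obtain ⟨F2, hF2, hc2⟩ := cov_body hM hE Set.inter_subset_right nE
  have nQ : (num Q' 1 : ℝ) ≤ 4 ^ r * num ((1 / 2 : ℝ) • Q') 1 := by
    have := num_double hC (t := 1 / 2) (by norm_num)
    have e : (2 : ℝ) * (1 / 2) = 1 := by norm_num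
    rw [e] at this
    have e2 : num ((1 / 2 : ℝ) • Q') 1 = num Q' (1 / 2) := by
      unfold num; rw [one_smul]
    rw [e2]
    exact_mod_cast this
  have hsubQ : (1 / 2 : ℝ) • Q' ⊆ Q' := by
    have := hC.mono (by norm_num : (0 : ℝ) ≤ 1 / 2) (by norm_num : (1 / 2 : ℝ) ≤ 1)
    rwa [one_smul] at this
  obtain ⟨F3, hF3, hc3⟩ := cov_body (hC.smul (1 / 2)) hC hsubQ nQ
  -- reduction to the Voronoi cell
  have hred : ∀ v ∈ lat (El S), ∃ w ∈ lat Q', ψ w = ψ v := by
    intro v hv
    have hfin : (lat (El S)).Finite := lat_finite hE.comp.isBounded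
    obtain ⟨w, hw, hmin⟩ := (hfin.toFinset.filter (fun w => ψ w = ψ v)).exists_min_image
      (fun w => bf S (re w) (re w)) ⟨v, Finset.mem_filter.2 ⟨(Set.Finite.mem_toFinset _).2 hv, rfl⟩⟩
    obtain ⟨hw1, hw2⟩ := Finset.mem_filter.1 hw
    have hw1' : w ∈ lat (El S) := (Set.Finite.mem_toFinset _).1 hw1
    refine ⟨w, ⟨hw1', ?_⟩, hw2⟩
    intro l hl
    have h1 : bf S (re w) (re w) ≤ bf S (re (w - l)) (re (w - l)) := by
      by_cases hin : w - l ∈ lat (El S)
      · refine hmin (w - l) (Finset.mem_filter.2 ⟨(Set.Finite.mem_toFinset _).2 hin, ?_⟩)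
        rw [map_sub, hl, sub_zero, hw2]
      · have h2 : ¬ bf S (re (w - l)) (re (w - l)) ≤ 2 * r := hin
        push Not at h2
        have h3 : bf S (re w) (re w) ≤ 2 * r := hw1'
        linarith
    rw [re_sub, bf_self_sub] at h1
    linarith
  -- injectivity on the half cell
  have hinj : Set.InjOn ψ (lat ((1 / 2 : ℝ) • Q')) := by
    intro w hw w' hw' hww
    obtain ⟨x, hx, hxw⟩ := hw
    obtain ⟨x', hx', hxw'⟩ := hw'
    have e1 : x = (2 : ℝ) • re w := by
      rw [← hxw]; simp [smul_smul]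
    have e2 : x' = (2 : ℝ) • re w' := by
      rw [← hxw']; simp [smul_smul]
    have h1 := hx.2 (w - w') (by rw [map_sub, hww, sub_self])
    have h2 := hx'.2 (w' - w) (by rw [map_sub, hww, sub_self])
    rw [e1, bf_symm, bf_smul, bf_symm S (re (w - w')) (re w)] at h1
    rw [e2, bf_symm, bf_smul, bf_symm S (re (w' - w)) (re w')] at h2
    have e3 : re (w' - w) = -re (w - w') := by rw [← re_neg]; congr 1; abel
    rw [e3, bf_neg, bf_neg, bf_symm S (-re (w - w')), bf_neg, neg_neg] at h2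
    have h3 : bf S (re (w - w')) (re (w - w')) ≤ 0 := by
      have h4 : bf S (re (w - w')) (re (w - w')) = bf S (re w) (re (w - w')) - bf S (re w') (re (w - w')) := by
        conv_lhs => rw [re_sub w w', bf_symm, bf_sub]
        rw [bf_symm S (re w - re w') (re w), bf_symm S (re w - re w') (re w'), re_sub]
      linarith
    have h5 := bf_eq_zero hS h3
    have h6 : w - w' = 0 := by
      funext i
      have := congrFun h5 i
      simp only [re, Pi.zero_apply] at this
      exact_mod_cast this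
    exact sub_eq_zero.1 h6
  refine ⟨(1 / 2 : ℝ) • Q', F1 + F3, hC.smul _, ?_, ?_, ?_⟩
  · calc ((F1 + F3).card : ℝ) ≤ F1.card * F3.card := by exact_mod_cast Finset.card_add_le
      _ ≤ (16 ^ r * 48 ^ r) * (16 ^ r * 4 ^ r) :=
        mul_le_mul hF1 hF3 (Nat.cast_nonneg _) (by positivity)
      _ = 49152 ^ r := by rw [← mul_pow, ← mul_pow, ← mul_pow]; norm_num
  · have hEf : (lat (El S)).Finite := lat_finite hE.comp.isBounded
    have hMf : (lat M).Finite := lat_finite hM.comp.isBounded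
    have hBf : (lat B).Finite := lat_finite hBs.comp.isBounded
    have h1 : (lat ((1 / 2 : ℝ) • Q')).ncard ≤ (ψ '' lat (El S)).ncard := by
      rw [← Set.ncard_image_of_injOn hinj]
      refine Set.ncard_le_ncard ?_ (hEf.image _)
      refine Set.image_mono ?_
      exact lat_mono (hsubQ.trans Set.inter_subset_left)
    have h2 : (ψ '' lat (El S)) ⊆ (F2.image ψ + (hMf.toFinset.image ψ) : Finset Γ) := by
      rintro _ ⟨v, hv, rfl⟩
      obtain ⟨f, hf, w, hw, rfl⟩ := hc2 v hv
      rw [Finset.mem_coe, map_add]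
      exact Finset.add_mem_add (Finset.mem_image_of_mem _ hf)
        (Finset.mem_image_of_mem _ ((Set.Finite.mem_toFinset _).2 hw))
    have h3 : (ψ '' lat (El S)).ncard ≤ F2.card * (ψ '' lat B).ncard := by
      calc (ψ '' lat (El S)).ncard ≤ (F2.image ψ + (hMf.toFinset.image ψ) : Finset Γ).card := by
            rw [← Set.ncard_coe_finset]
            exact Set.ncard_le_ncard h2 (Finset.finite_toSet _)
        _ ≤ (F2.image ψ).card * (hMf.toFinset.image ψ).card := Finset.card_add_le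
        _ ≤ F2.card * (ψ '' lat B).ncard := by
          refine Nat.mul_le_mul Finset.card_image_le ?_
          rw [← Set.ncard_coe_finset, Finset.coe_image, Set.Finite.coe_toFinset]
          exact Set.ncard_le_ncard (Set.image_mono (lat_mono Set.inter_subset_left)) (hBf.image _)
    calc ((lat ((1 / 2 : ℝ) • Q')).ncard : ℝ) ≤ ((F2.card * (ψ '' lat B).ncard : ℕ) : ℝ) := by
          exact_mod_cast h1.trans h3
      _ = F2.card * (ψ '' lat B).ncard := by push_cast; ring
      _ ≤ (16 ^ r * 420 ^ r) * (ψ '' lat B).ncard := mul_le_mul_of_nonneg_right hF2 (Nat.cast_nonneg _)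
      _ = 6720 ^ r * (ψ '' lat B).ncard := by rw [← mul_pow]; norm_num
  · intro v hv
    obtain ⟨f, hf, m, hm, rfl⟩ := hc1 v hv
    obtain ⟨w, hw, hww⟩ := hred m (lat_mono Set.inter_subset_right hm)
    obtain ⟨f', hf', u, hu, rfl⟩ := hc3 w hw
    refine ⟨f + f', Finset.add_mem_add hf hf', u, hu, ?_⟩
    rw [map_add, ← hww, map_add, map_add]
    abel

/-- **The core**: the image of a convex progression is covered by few translates of the image of
a convex progression whose volume is not much larger than the size of this image. -/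
theorem core {r : ℕ} {B : Set (Fin r → ℝ)} (hB : Sym B) {Γ : Type*}
    [AddCommGroup Γ] (ψ : (Fin r → ℤ) →+ Γ) :
    ∃ (Q : Set (Fin r → ℝ)) (F : Finset (Fin r → ℤ)), Sym Q ∧ (F.card : ℝ) ≤ 49152 ^ r ∧
      ((lat Q).ncard : ℝ) ≤ 6720 ^ r * (ψ '' lat B).ncard ∧
      ∀ v ∈ lat B, ∃ f ∈ F, ∃ w ∈ lat Q, ψ v = ψ f + ψ w := by
  rcases Nat.eq_zero_or_pos r with h0 | h0
  · subst h0
    have hsub : lat B ⊆ {0} := fun v _ => Subsingleton.elim _ _
    have h0B : (0 : Fin 0 → ℤ) ∈ lat B := by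
      show re 0 ∈ B
      have : re (0 : Fin 0 → ℤ) = 0 := Subsingleton.elim _ _
      rw [this]; exact hB.zero
    have heq : lat B = {0} := Set.Subset.antisymm hsub (by rintro _ rfl; exact h0B)
    refine ⟨B, {0}, hB, by simp, ?_, ?_⟩
    · rw [heq]; simp
    · intro v hv
      exact ⟨0, Finset.mem_singleton_self _, v, hv, by rw [map_zero, zero_add]⟩
  · obtain ⟨B', hB', hlat⟩ := fatten hB
    obtain ⟨Q, F, h1, h2, h3, h4⟩ := core_body h0 hB' ψ
    rw [hlat] at h3 h4
    exact ⟨Q, F, h1, h2, h3, h4⟩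

end Pool.Agent.H608VF
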