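import Pool.Agent.helper608_VF.V7

/-!
# Quotients by almost periods, and groups without elements of odd order
-/

set_option autoImplicit false

namespace Pool.Agent.H608VF

open Finset
open Pool.Agent.Y806.DF Pool.Agent.R92.Star
open scoped Pointwise

universe u v

theorem ncard_preim {Γ : Type*} [AddCommGroup Γ] (P : AddSubgroup Γ) (Y : Set (Γ ⧸ P)) :
    ((QuotientAddGroup.mk' P) ⁻¹' Y).ncard = Nat.card P * Y.ncard := by
  have h1 := Nat.card_congr (QuotientAddGroup.preimageMkEquivAddSubgroupProdSet P Y)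
  rw [Nat.card_prod] at h1
  rw [← Nat.card_coe_set_eq, ← Nat.card_coe_set_eq]
  exact h1

theorem add_eq_preim {Γ : Type*} [AddCommGroup Γ] (P : AddSubgroup Γ) (A : Set Γ) :
    A + (P : Set Γ) = (QuotientAddGroup.mk' P) ⁻¹' ((QuotientAddGroup.mk' P) '' A) := by
  ext y
  constructor
  · rintro ⟨a, ha, h, hh, rfl⟩
    refine ⟨a, ha, ?_⟩
    show (QuotientAddGroup.mk' P) a = (QuotientAddGroup.mk' P) (a + h)
    rw [map_add]
    have : (QuotientAddGroup.mk' P) h = 0 := (QuotientAddGroup.eq_zero_iff h).2 hh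
    rw [this, add_zero]
  · rintro ⟨a, ha, hay⟩
    have h1 : (QuotientAddGroup.mk' P) (y - a) = 0 := by
      rw [map_sub]
      exact sub_eq_zero.2 hay.symm
    exact ⟨a, ha, y - a, (QuotientAddGroup.eq_zero_iff _).1 h1, by simp⟩

/-- **Step II**: quotients by almost periods. -/
theorem stepII (C : ℝ) : ∃ C' : ℝ, ∀ (Γ : Type u) [AddCommGroup Γ] [DecidableEq Γ]
    (P : AddSubgroup Γ) [DecidableEq (Γ ⧸ P)] (K : ℝ) (A : Finset Γ), Finite P → A.Nonempty →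
    ((A + A).card : ℝ) ≤ K * A.card →
    (((A : Set Γ) + (P : Set Γ)).ncard : ℝ) ≤ 2 * K ^ 370 * A.card →
    Concl C (K ^ 3) (A.image (QuotientAddGroup.mk' P)) → Concl C' K A := by
  obtain ⟨n, hn1, hn, hCK⟩ := nat_const C
  obtain ⟨c, hc⟩ : ∃ c : ℕ, c = 4 ^ n := ⟨_, rfl⟩
  obtain ⟨C', hC'⟩ := concl_of_cov.{u} (2 * c) (370 + 3 * c)
  refine ⟨C', ?_⟩
  intro Γ _ _ P _ K A hP hA hK hper h
  have hK1 := one_le_K hA hK
  have hK0 : 0 < K := by linarith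
  have hK31 : (1 : ℝ) ≤ K ^ 3 := one_le_pow₀ hK1
  obtain ⟨d, B, ψ, H, T, hd, hB, hH, hvol, hT, hcov⟩ := h
  set p := QuotientAddGroup.mk' P with hp
  have hsurj : Function.Surjective p := QuotientAddGroup.mk'_surjective P
  obtain ⟨φ, hφ⟩ := Pool.Agent.R424.EX.lift p hsurj ψ
  choose s hs using hsurj
  have hc1 : 1 ≤ c := by rw [hc]; exact Nat.one_le_pow _ _ (by norm_num)
  have hc1r : (1 : ℝ) ≤ c := by exact_mod_cast hc1
  have hKp : ∀ k : ℕ, (1 : ℝ) ≤ K ^ k := fun k => one_le_pow₀ hK1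
  have hAr : (0 : ℝ) < A.card := by exact_mod_cast hA.card_pos
  -- the group
  set H' := H.comap p with hH'
  have hcard : Nat.card H' = Nat.card P * Nat.card H := by
    have h1 := ncard_preim P (H : Set (Γ ⧸ P))
    rw [← Nat.card_coe_set_eq, ← Nat.card_coe_set_eq] at h1
    exact h1
  have hPpos : 0 < Nat.card P := Nat.card_pos
  have hHpos : 0 < Nat.card H := Nat.card_pos
  have hfinH' : Finite H' := by
    refine Nat.finite_of_card_ne_zero ?_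
    rw [hcard]
    positivity
  -- the volume
  have hBf : (lat B).Finite := lat_finite hB.2.1.isBounded
  have hAP : Nat.card P * (A.image p).card = ((A : Set Γ) + (P : Set Γ)).ncard := by
    rw [add_eq_preim, ncard_preim, ← Set.ncard_coe_finset, Finset.coe_image]
  have hvol1 : (cpr (lat B) φ H').ncard ≤ ((A : Set Γ) + (P : Set Γ)).ncard := by
    calc (cpr (lat B) φ H').ncard ≤ (lat B).ncard * Nat.card H' := ncard_cpr_le hBf φ H'
      _ = Nat.card P * ((lat B).ncard * Nat.card H) := by rw [hcard]; ring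
      _ ≤ Nat.card P * (A.image p).card := Nat.mul_le_mul_left _ hvol
      _ = _ := hAP
  refine hC' Γ K A hA hK d B φ H' (T.image s) ?_ ?_ hB hfinH' ?_ ?_ ?_
  · have := hKp (370 + 3 * c)
    push_cast
    nlinarith
  · have h1 := four_pow hn hK31 hd
    rw [← hc] at h1
    calc (4 : ℝ) ^ d ≤ (c : ℝ) * (K ^ 3) ^ c := h1
      _ = 1 * c * (1 * K ^ (3 * c)) := by rw [one_mul, one_mul, ← pow_mul]
      _ ≤ 2 * c * (K ^ 370 * K ^ (3 * c)) := by
        have := hKp 370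
        gcongr
        norm_num
      _ = ((2 * c : ℕ) : ℝ) * K ^ (370 + 3 * c) := by rw [pow_add]; push_cast; ring
  · calc ((cpr (lat B) φ H').ncard : ℝ) ≤ (((A : Set Γ) + (P : Set Γ)).ncard : ℝ) := by
          exact_mod_cast hvol1
      _ ≤ 2 * K ^ 370 * A.card := hper
      _ = (2 * 1 * (K ^ 370 * 1)) * A.card := by ring
      _ ≤ (2 * c * (K ^ 370 * K ^ (3 * c))) * A.card := by
        have := hKp (3 * c)
        gcongr
      _ = (((2 * c : ℕ) : ℝ) * K ^ (370 + 3 * c)) * A.card := by rw [pow_add]; push_cast; ring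
  · have h1 : ((T.image s).card : ℝ) ≤ T.card := by exact_mod_cast Finset.card_image_le
    have h2 := hT.trans (hCK (K ^ 3) hK31)
    have h3 := poly_le hn1 hK31
    rw [← hc] at h3
    calc ((T.image s).card : ℝ) ≤ T.card := h1
      _ ≤ n * (K ^ 3) ^ n := h2
      _ ≤ (c : ℝ) * (K ^ 3) ^ c := h3
      _ = 1 * c * (1 * K ^ (3 * c)) := by rw [one_mul, one_mul, ← pow_mul]
      _ ≤ 2 * c * (K ^ 370 * K ^ (3 * c)) := by
        have := hKp 370
        gcongr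
        norm_num
      _ = ((2 * c : ℕ) : ℝ) * K ^ (370 + 3 * c) := by rw [pow_add]; push_cast; ring
  · intro a ha
    obtain ⟨t, ht, x, hx, h, hh, e⟩ := hcov (p a) (Finset.mem_image_of_mem _ ha)
    refine ⟨s t, Finset.mem_image_of_mem _ ht, x, hx, a - s t - φ x, ?_, by abel⟩
    rw [hH', AddSubgroup.mem_comap, map_sub, map_sub, hs, hφ, e]
    have : t + ψ x + h - t - ψ x = h := by abel
    rw [this]
    exact hh

/-- elements of a finitely generated subgroup -/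
theorem exists_phi {Δ : Type*} [AddCommGroup Δ] (S : Finset Δ) :
    ∃ φ : (Fin S.card → ℤ) →+ Δ, ∀ y ∈ AddSubgroup.closure (S : Set Δ), ∃ v, φ v = y := by
  classical
  let e := S.equivFin.symm
  let g : Fin S.card → Δ := fun i => (e i : Δ)
  refine ⟨(Fintype.linearCombination ℤ g).toAddMonoidHom, ?_⟩
  intro y hy
  have h1 : y ∈ Submodule.span ℤ (Set.range g) := by
    have h2 : Set.range g = (S : Set Δ) := by
      ext z
      constructor
      · rintro ⟨i, rfl⟩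
        exact (e i).2
      · intro hz
        exact ⟨e.symm ⟨z, hz⟩, by show ((e (e.symm ⟨z, hz⟩) : S) : Δ) = z; rw [Equiv.apply_symm_apply]⟩
    rw [h2]
    have h3 := Submodule.span_int_eq_addSubgroupClosure (S : Set Δ)
    rw [← h3] at hy
    exact hy
  rw [← Fintype.range_linearCombination ℤ] at h1
  exact h1

/-- **Step I, for sets with a large part in a coset of a subgroup of small rank.** -/
theorem small_rank (C : ℝ) (c₀ : ℕ) : ∃ C' : ℝ, QZ C → ∀ (Γ : Type u) [AddCommGroup Γ]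
    [DecidableEq Γ] (K : ℝ) (A : Finset Γ), A.Nonempty → ((A + A).card : ℝ) ≤ K * A.card →
    ∀ (t : Γ) (r : ℕ) (φ : (Fin r → ℤ) →+ Γ) (A₁ : Finset Γ), A₁ ⊆ A →
      (∀ a ∈ A₁, ∃ v, a = t + φ v) → (A.card : ℝ) ≤ (c₀ * K ^ c₀) * A₁.card →
      (125 : ℝ) ^ r ≤ c₀ * K ^ c₀ → Concl C' K A := by
  obtain ⟨n, hn1, hn, hCK⟩ := nat_const C
  obtain ⟨c, hc⟩ : ∃ c : ℕ, c = 4 ^ n := ⟨_, rfl⟩
  obtain ⟨e, he⟩ : ∃ e : ℕ, e = 8366 := ⟨_, rfl⟩
  obtain ⟨q, hq⟩ : ∃ q : ℕ, q = 16777216 := ⟨_, rfl⟩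
  -- `M₀ = c₀' K^c₀'` with `c₀' = c₀ + 1`
  obtain ⟨c₁, hc₁⟩ : ∃ c₁ : ℕ, c₁ = c₀ + 1 := ⟨_, rfl⟩
  obtain ⟨C', hC'⟩ := Pool.Agent.R424.EX.concl_of.{u} (q * ((c * (c₁ ^ 3) ^ c) ^ 5) ^ e)
    (((c₁ * 3) * c * 5) * e)
  refine ⟨C', ?_⟩
  intro hQ Γ _ _ K A hA hK t r φ A₁ hA₁ hφ hpop hr
  have hK1 := one_le_K hA hK
  have hK0 : 0 < K := by linarith
  have hc₁1 : (1 : ℝ) ≤ c₁ := by rw [hc₁]; push_cast; linarith [Nat.cast_nonneg (α := ℝ) c₀]
  have hM₀ : (c₀ : ℝ) * K ^ c₀ ≤ c₁ * K ^ c₁ := by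
    refine mul_le_mul ?_ (pow_le_pow_right₀ hK1 (by omega)) (by positivity) (by positivity)
    rw [hc₁]; push_cast; linarith
  have hKM₀ : K ≤ c₁ * K ^ c₁ := by
    calc K = 1 * K ^ 1 := by ring
      _ ≤ c₁ * K ^ c₁ := mul_le_mul hc₁1 (pow_le_pow_right₀ hK1 (by omega)) (by positivity)
        (by positivity)
  obtain ⟨M, hM⟩ : ∃ M : ℝ, M = ((4 ^ n : ℕ) : ℝ) * ((c₁ * K ^ c₁) ^ 3) ^ (4 ^ n : ℕ) := ⟨_, rfl⟩
  obtain ⟨d, X, ψ, g, hS⟩ := stepI hn1 hn hCK hQ hA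
    (hK.trans (mul_le_mul_of_nonneg_right hKM₀ (Nat.cast_nonneg _))) φ t A₁ hA₁ hφ
    (hpop.trans (mul_le_mul_of_nonneg_right hM₀ (Nat.cast_nonneg _))) (hr.trans hM₀) hM
  have hM1 : 1 ≤ M := by
    rw [hM]
    have h1 : (1 : ℝ) ≤ c₁ * K ^ c₁ := hK1.trans hKM₀
    have h2 : (1 : ℝ) ≤ ((c₁ * K ^ c₁) ^ 3) ^ (4 ^ n : ℕ) := one_le_pow₀ (one_le_pow₀ h1)
    have h3 : (1 : ℝ) ≤ ((4 ^ n : ℕ) : ℝ) := by exact_mod_cast Nat.one_le_pow _ _ (by norm_num)
    nlinarith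
  have hM51 : 1 ≤ M ^ 5 := one_le_pow₀ hM1
  obtain ⟨r', X', ψ', g', hD⟩ := to_data hA hM51 hS
  refine hC' Γ K A hA hK r' X' ψ' ⊥ g' (hD.mono (le_of_eq ?_))
  rw [hM, ← hc, ← he]
  have e1 : ((c : ℝ) * ((c₁ * K ^ c₁) ^ 3) ^ c) = ((c * (c₁ ^ 3) ^ c : ℕ) : ℝ) * K ^ (c₁ * 3 * c) := by
    rw [mul_pow (c₁ : ℝ), mul_pow ((c₁ : ℝ) ^ 3), ← pow_mul K, ← pow_mul K]
    push_cast
    ring
  rw [e1, mul_pow, ← pow_mul K, mul_pow _ _ e, ← pow_mul K, hq, Nat.cast_mul (16777216 : ℕ),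
    Nat.cast_pow, Nat.cast_pow]
  push_cast
  ring

end Pool.Agent.H608VF
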