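import Pool.Agent.helper608_VF.V8

/-!
# Groups in which the elements of odd order have bounded order
-/

set_option autoImplicit false

namespace Pool.Agent.H608VF

open Finset
open Pool.Agent.Y806.DF Pool.Agent.R92.Star
open scoped Pointwise

universe u v

theorem weak_str {Γ : Type*} [AddCommGroup Γ] [inst : DecidableEq Γ] {K : ℝ} {A : Finset Γ}
    (hA : A.Nonempty) (hK : ((A + A).card : ℝ) ≤ K * A.card) :
    ∃ (P : AddSubgroup Γ) (S T : Finset Γ), Finite P ∧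
      (((A : Set Γ) + (P : Set Γ)).ncard : ℝ) ≤ 2 * K ^ 370 * A.card ∧
      (S.card : ℝ) ≤ 480 * Real.log K + 1 ∧ (T.card : ℝ) ≤ K ^ 185 ∧
      ∀ a ∈ A, ∃ t ∈ T, ∃ o : Γ, (∃ m : ℕ, Odd m ∧ m • o = 0) ∧
        a - t - o ∈ P ⊔ AddSubgroup.closure (S : Set Γ) := by
  have e : inst = fun a b => Classical.propDecidable (a = b) := Subsingleton.elim _ _
  subst e
  obtain ⟨P, S, T, h1, -, h3, h4, -, h6, h7⟩ := H137.Weak.weak_marton hA hK
  exact ⟨P, S, T, h1, h3, h4, h6, h7⟩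

/-- groups without elements of odd order -/
theorem step0 (C : ℝ) : ∃ C' : ℝ, QZ C → ∀ (Γ : Type u) [AddCommGroup Γ] [DecidableEq Γ],
    (∀ x : Γ, (∃ k : ℕ, Odd k ∧ k • x = 0) → x = 0) → ∀ (K : ℝ) (A : Finset Γ), A.Nonempty →
    ((A + A).card : ℝ) ≤ K * A.card → Concl C' K A := by
  classical
  obtain ⟨C₁, hC₁⟩ := small_rank.{u} C 4096
  obtain ⟨C', hC'⟩ := stepII.{u} C₁
  refine ⟨C', ?_⟩
  intro hQ Γ _ _ htor K A hA hK
  have hK1 := one_le_K hA hK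
  have hK0 : 0 < K := by linarith
  have hK31 : (1 : ℝ) ≤ K ^ 3 := one_le_pow₀ hK1
  obtain ⟨P, S, T, hP, hper, hS, hT, hcov⟩ := weak_str hA hK
  refine hC' Γ P K A hP hA hK hper ?_
  set p := QuotientAddGroup.mk' P with hp
  have hne : (A.image p).Nonempty := hA.image _
  have hdoub := Pool.Agent.R424.EX.image_doubling p hA hK
  obtain ⟨φ, hφ⟩ := exists_phi S
  have hcov' : ∀ b ∈ A.image p, ∃ t ∈ T, ∃ v, b = p t + p (φ v) := by
    intro b hb
    obtain ⟨a, ha, rfl⟩ := Finset.mem_image.1 hb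
    obtain ⟨t, ht, o, ho, hao⟩ := hcov a ha
    rw [htor o ho, sub_zero] at hao
    obtain ⟨u, hu, w, hw, huw⟩ := AddSubgroup.mem_sup.1 hao
    obtain ⟨v, hv⟩ := hφ w hw
    refine ⟨t, ht, v, ?_⟩
    have h1 : p u = 0 := (QuotientAddGroup.eq_zero_iff u).2 hu
    have h2 : a = t + (u + w) := by rw [huw]; abel
    rw [h2, map_add, map_add, h1, zero_add, hv]
  obtain ⟨t, ht, hpop⟩ := pigeon T (A.image p) (A.image p) hne
    (fun t b => ∃ v, b = p t + p (φ v)) subset_rfl hcov'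
  have hA₁ : ((A.image p).filter (fun b => ∃ v, b = p t + p (φ v))) ⊆ A.image p :=
    Finset.filter_subset _ _
  have hKmono : ∀ k : ℕ, k ≤ 3 * 4096 → (K : ℝ) ^ k ≤ (K ^ 3) ^ 4096 := by
    intro k hk
    rw [← pow_mul]
    exact pow_le_pow_right₀ hK1 hk
  refine hC₁ hQ (Γ ⧸ P) (K ^ 3) (A.image p) hne hdoub (p t) S.card (p.comp φ) _ hA₁ ?_ ?_ ?_
  · intro b hb
    exact (Finset.mem_filter.1 hb).2
  · have h1 : ((A.image p).card : ℝ) ≤ T.card *
        (((A.image p).filter (fun b => ∃ v, b = p t + p (φ v))).card : ℝ) := by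
      exact_mod_cast hpop
    refine h1.trans (mul_le_mul_of_nonneg_right ?_ (Nat.cast_nonneg _))
    calc (T.card : ℝ) ≤ K ^ 185 := hT
      _ ≤ (K ^ 3) ^ 4096 := hKmono 185 (by norm_num)
      _ ≤ ((4096 : ℕ) : ℝ) * (K ^ 3) ^ 4096 := by
        refine le_mul_of_one_le_left (by positivity) (by norm_num)
  · have h1 := pow_bound hK1 hS
    calc (125 : ℝ) ^ S.card ≤ 4096 ^ S.card := pow_le_pow_left₀ (by norm_num) (by norm_num) _
      _ ≤ 4096 * K ^ 3993 := h1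
      _ ≤ ((4096 : ℕ) : ℝ) * (K ^ 3) ^ 4096 := by
        have := hKmono 3993 (by norm_num)
        push_cast
        exact mul_le_mul_of_nonneg_left this (by norm_num)

/-- the subgroup of the elements of odd order -/
def Todd (Γ : Type*) [AddCommGroup Γ] : AddSubgroup Γ where
  carrier := {x | ∃ k : ℕ, Odd k ∧ k • x = 0}
  zero_mem' := ⟨1, odd_one, smul_zero _⟩
  add_mem' := by
    rintro x y ⟨k, hk, hx⟩ ⟨l, hl, hy⟩
    refine ⟨k * l, hk.mul hl, ?_⟩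
    rw [smul_add, mul_comm k l, mul_smul, hx, smul_zero, mul_comm l k, mul_smul, hy, smul_zero,
      add_zero]
  neg_mem' := by
    rintro x ⟨k, hk, hx⟩
    exact ⟨k, hk, by rw [smul_neg, hx, neg_zero]⟩

/-- **The transfer theorem.** -/
theorem transfer (C : ℝ) (m : ℕ) (hm : 0 < m) : ∃ C' : ℝ, QZ C → ∀ (Γ : Type u) [AddCommGroup Γ]
    [DecidableEq Γ], (∀ x : Γ, (∃ k : ℕ, Odd k ∧ k • x = 0) → m • x = 0) → ∀ (K : ℝ)
    (A : Finset Γ), A.Nonempty → ((A + A).card : ℝ) ≤ K * A.card → Concl C' K A := by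
  classical
  obtain ⟨C₀, hC₀⟩ := step0.{u} C
  obtain ⟨C', hC'⟩ := Pool.Agent.R424.EX.ext.{u, u} C₀ m hm
  refine ⟨C', ?_⟩
  intro hQ Γ _ _ htor K A hA hK
  set p := QuotientAddGroup.mk' (Todd Γ) with hp
  refine hC' Γ (Γ ⧸ Todd Γ) p (QuotientAddGroup.mk'_surjective _) ?_ K A hA hK ?_
  · intro x hx
    exact htor x ((QuotientAddGroup.eq_zero_iff x).1 hx)
  · refine hC₀ hQ (Γ ⧸ Todd Γ) ?_ (K ^ 3) (A.image p) (hA.image _)
      (Pool.Agent.R424.EX.image_doubling p hA hK)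
    intro x hx
    obtain ⟨k, hk, hkx⟩ := hx
    obtain ⟨y, rfl⟩ := QuotientAddGroup.mk'_surjective (Todd Γ) x
    rw [← map_nsmul] at hkx
    obtain ⟨l, hl, hly⟩ := (QuotientAddGroup.eq_zero_iff (k • y)).1 hkx
    refine (QuotientAddGroup.eq_zero_iff y).2 ⟨l * k, hl.mul hk, ?_⟩
    rw [mul_smul]
    exact hly

end Pool.Agent.H608VF
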